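import Mathlib

/-!
Independent Bernoulli variables on a finite index set, as finite sums: probabilities of simple
events and an exponential moment inequality for functions with bounded differences.
-/

open Finset

namespace Pool.Agent.H12.Nib

variable {I : Type} [DecidableEq I]

/-- weight of `t ⊆ D` -/
noncomputable def pw (p : I → ℝ) (D t : Finset I) : ℝ := (∏ i ∈ t, p i) * ∏ i ∈ D \ t, (1 - p i)

/-- averaging over the coordinates in `D` -/
noncomputable def ED (p : I → ℝ) (D : Finset I) (J : Finset I → ℝ) (s : Finset I) : ℝ :=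
  ∑ t ∈ D.powerset, pw p D t * J ((s \ D) ∪ t)

theorem pw_nonneg {p : I → ℝ} (h0 : ∀ i, 0 ≤ p i) (h1 : ∀ i, p i ≤ 1) (D t : Finset I) :
    0 ≤ pw p D t :=
  mul_nonneg (Finset.prod_nonneg fun i _ => h0 i)
    (Finset.prod_nonneg fun i _ => sub_nonneg.2 (h1 i))

theorem ED_empty (p : I → ℝ) (J : Finset I → ℝ) (s : Finset I) : ED p ∅ J s = J s := by
  simp [ED, pw]

theorem ED_insert (p : I → ℝ) {D : Finset I} {i : I} (hi : i ∉ D) (J : Finset I → ℝ)
    (s : Finset I) : ED p (insert i D) J s =
      (1 - p i) * ED p D J (s.erase i) + p i * ED p D J (insert i s) := by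
  unfold ED
  rw [Finset.sum_powerset_insert hi, Finset.mul_sum, Finset.mul_sum]
  congr 1
  · apply Finset.sum_congr rfl
    intro t ht
    have htD := Finset.mem_powerset.1 ht
    have hit : i ∉ t := fun h => hi (htD h)
    have h1 : pw p (insert i D) t = (1 - p i) * pw p D t := by
      unfold pw
      rw [Finset.insert_sdiff_of_notMem D hit, Finset.prod_insert (by simp [hi])]
      ring
    have h2 : s \ insert i D ∪ t = s.erase i \ D ∪ t := by
      congr 1
      ext x
      simp only [Finset.mem_sdiff, Finset.mem_insert, Finset.mem_erase]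
      tauto
    rw [h1, h2, mul_assoc]
  · apply Finset.sum_congr rfl
    intro t ht
    have htD := Finset.mem_powerset.1 ht
    have hit : i ∉ t := fun h => hi (htD h)
    have h1 : pw p (insert i D) (insert i t) = p i * pw p D t := by
      unfold pw
      rw [Finset.prod_insert hit]
      have h3 : insert i D \ insert i t = D \ t := by
        ext x
        simp only [Finset.mem_sdiff, Finset.mem_insert]
        constructor
        · rintro ⟨h | h, h'⟩
          · exact absurd (Or.inl h) h'
          · exact ⟨h, fun hx => h' (Or.inr hx)⟩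
        · rintro ⟨h, h'⟩
          refine ⟨Or.inr h, ?_⟩
          rintro (rfl | hx)
          · exact hi h
          · exact h' hx
      rw [h3]
      ring
    have h2 : s \ insert i D ∪ insert i t = insert i s \ D ∪ t := by
      ext x
      simp only [Finset.mem_sdiff, Finset.mem_insert, Finset.mem_union]
      constructor
      · rintro (⟨h, h'⟩ | rfl | h)
        · exact Or.inl ⟨Or.inr h, fun hx => h' (Or.inr hx)⟩
        · exact Or.inl ⟨Or.inl rfl, hi⟩
        · exact Or.inr h
      · rintro (⟨rfl | h, h'⟩ | h)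
        · exact Or.inr (Or.inl rfl)
        · by_cases hx : x = i
          · exact Or.inr (Or.inl hx)
          · exact Or.inl ⟨h, fun h'' => h''.elim hx h'⟩
        · exact Or.inr (Or.inr h)
    rw [h1, h2, mul_assoc]

theorem ED_mono {p : I → ℝ} (h0 : ∀ i, 0 ≤ p i) (h1 : ∀ i, p i ≤ 1) (D : Finset I)
    {J K : Finset I → ℝ} (h : ∀ s, J s ≤ K s) (s : Finset I) : ED p D J s ≤ ED p D K s := by
  unfold ED
  apply Finset.sum_le_sum
  intro t _
  exact mul_le_mul_of_nonneg_left (h _) (pw_nonneg h0 h1 D t)

theorem ED_const_mul (p : I → ℝ) (D : Finset I) (c : ℝ) (J : Finset I → ℝ) (s : Finset I) :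
    ED p D (fun t => c * J t) s = c * ED p D J s := by
  unfold ED
  rw [Finset.mul_sum]
  apply Finset.sum_congr rfl
  intro t _
  ring

theorem ED_add (p : I → ℝ) (D : Finset I) (J K : Finset I → ℝ) (s : Finset I) :
    ED p D (fun t => J t + K t) s = ED p D J s + ED p D K s := by
  unfold ED
  rw [← Finset.sum_add_distrib]
  apply Finset.sum_congr rfl
  intro t _
  ring

theorem ED_sum (p : I → ℝ) (D : Finset I) {α : Type} (A : Finset α) (J : α → Finset I → ℝ)
    (s : Finset I) : ED p D (fun t => ∑ a ∈ A, J a t) s = ∑ a ∈ A, ED p D (J a) s := by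
  unfold ED
  rw [Finset.sum_comm]
  apply Finset.sum_congr rfl
  intro t _
  rw [Finset.mul_sum]

theorem ED_const (p : I → ℝ) (D : Finset I) (c : ℝ) (s : Finset I) :
    ED p D (fun _ => c) s = c := by
  induction D using Finset.induction_on generalizing s with
  | empty => exact ED_empty p _ s
  | insert i D hi ih =>
    rw [ED_insert p hi, ih, ih]
    ring

/-- one step of the exponential moment inequality -/
theorem exp_step {p u : ℝ} (h0 : 0 ≤ p) (h1 : p ≤ 1) (hu : |u| ≤ 1) :
    (1 - p) * Real.exp (-(p * u)) + p * Real.exp ((1 - p) * u) ≤ Real.exp (p * u ^ 2) := by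
  have hexp : ∀ x : ℝ, |x| ≤ 1 → Real.exp x ≤ 1 + x + x ^ 2 := by
    intro x hx
    have h := Real.abs_exp_sub_one_sub_id_le hx
    have h2 := (abs_le.1 h).2
    linarith
  have e1 : |-(p * u)| ≤ 1 := by
    rw [abs_neg, abs_mul, abs_of_nonneg h0]
    nlinarith [abs_nonneg u]
  have e2 : |(1 - p) * u| ≤ 1 := by
    rw [abs_mul, abs_of_nonneg (by linarith : 0 ≤ 1 - p)]
    nlinarith [abs_nonneg u]
  have h3 := mul_le_mul_of_nonneg_left (hexp _ e1) (by linarith : 0 ≤ 1 - p)
  have h4 := mul_le_mul_of_nonneg_left (hexp _ e2) h0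
  have h5 : (1 - p) * (1 + -(p * u) + (-(p * u)) ^ 2) + p * (1 + (1 - p) * u + ((1 - p) * u) ^ 2) =
      1 + p * (1 - p) * u ^ 2 := by ring
  have h6 : 1 + p * (1 - p) * u ^ 2 ≤ 1 + p * u ^ 2 := by
    nlinarith [mul_nonneg (mul_nonneg h0 h0) (sq_nonneg u)]
  have h7 : p * u ^ 2 + 1 ≤ Real.exp (p * u ^ 2) := Real.add_one_le_exp _
  linarith

/-- bounded differences are preserved by averaging -/
theorem ED_diff {p : I → ℝ} (h0 : ∀ i, 0 ≤ p i) (h1 : ∀ i, p i ≤ 1) (D : Finset I)
    {J : Finset I → ℝ} {i : I} {c : ℝ} (h : ∀ s, |J (insert i s) - J (s.erase i)| ≤ c)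
    (hi : i ∉ D) (s : Finset I) : |ED p D J (insert i s) - ED p D J (s.erase i)| ≤ c := by
  induction D using Finset.induction_on generalizing s with
  | empty => rw [ED_empty, ED_empty]; exact h s
  | insert j D hj ih =>
    have hij : i ≠ j := fun h => hi (by rw [h]; exact Finset.mem_insert_self _ _)
    have hi' : i ∉ D := fun h => hi (Finset.mem_insert_of_mem h)
    rw [ED_insert p hj, ED_insert p hj]
    have e1 : (insert i s).erase j = insert i (s.erase j) := Finset.erase_insert_of_ne hij
    have e2 : (s.erase i).erase j = (s.erase j).erase i := Finset.erase_right_comm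
    have e3 : insert j (insert i s) = insert i (insert j s) := Finset.insert_comm _ _ _
    have e4 : insert j (s.erase i) = (insert j s).erase i := by
      rw [Finset.erase_insert_of_ne (Ne.symm hij)]
    rw [e1, e2, e3, e4]
    have g1 := ih hi' (s.erase j)
    have g2 := ih hi' (insert j s)
    have hp := h0 j
    have hp' : 0 ≤ 1 - p j := sub_nonneg.2 (h1 j)
    have key : (1 - p j) * ED p D J (insert i (s.erase j)) + p j * ED p D J (insert i (insert j s)) -
        ((1 - p j) * ED p D J ((s.erase j).erase i) + p j * ED p D J ((insert j s).erase i)) =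
        (1 - p j) * (ED p D J (insert i (s.erase j)) - ED p D J ((s.erase j).erase i)) +
        p j * (ED p D J (insert i (insert j s)) - ED p D J ((insert j s).erase i)) := by ring
    rw [key]
    refine (abs_add_le _ _).trans ?_
    rw [abs_mul, abs_mul, abs_of_nonneg hp, abs_of_nonneg hp']
    have k1 := mul_le_mul_of_nonneg_left g1 hp'
    have k2 := mul_le_mul_of_nonneg_left g2 hp
    linarith

/-- exponential moments -/
theorem ED_exp {p : I → ℝ} (h0 : ∀ i, 0 ≤ p i) (h1 : ∀ i, p i ≤ 1) {J : Finset I → ℝ}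
    {c : I → ℝ} (h : ∀ i s, |J (insert i s) - J (s.erase i)| ≤ c i) {l : ℝ} (hl : 0 ≤ l)
    (hlc : ∀ i, l * c i ≤ 1) (D : Finset I) (s : Finset I) :
    ED p D (fun t => Real.exp (l * (ED p D J s - J t))) s ≤
      Real.exp (l ^ 2 * ∑ i ∈ D, p i * c i ^ 2) := by
  induction D using Finset.induction_on generalizing s with
  | empty => rw [ED_empty, ED_empty]; simp
  | insert i D hi ih =>
    set K := ED p D J with hK
    set m := ED p (insert i D) J s with hm
    have hm' : m = (1 - p i) * K (s.erase i) + p i * K (insert i s) := ED_insert p hi J s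
    rw [ED_insert p hi]
    have hfac : ∀ r : Finset I, ED p D (fun t => Real.exp (l * (m - J t))) r =
        Real.exp (l * (m - K r)) * ED p D (fun t => Real.exp (l * (K r - J t))) r := by
      intro r
      rw [← ED_const_mul]
      congr 1
      funext t
      rw [← Real.exp_add]
      congr 1
      ring
    have hb : ∀ r : Finset I, ED p D (fun t => Real.exp (l * (m - J t))) r ≤
        Real.exp (l * (m - K r)) * Real.exp (l ^ 2 * ∑ i ∈ D, p i * c i ^ 2) := by
      intro r
      rw [hfac]
      exact mul_le_mul_of_nonneg_left (ih r) (Real.exp_pos _).le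
    have hp := h0 i
    have hp' : 0 ≤ 1 - p i := sub_nonneg.2 (h1 i)
    have g1 := mul_le_mul_of_nonneg_left (hb (s.erase i)) hp'
    have g2 := mul_le_mul_of_nonneg_left (hb (insert i s)) hp
    set u := l * (K (s.erase i) - K (insert i s)) with hu
    have hd : |K (insert i s) - K (s.erase i)| ≤ c i := ED_diff h0 h1 D (h i) hi s
    have hu1 : |u| ≤ l * c i := by
      rw [hu, abs_mul, abs_of_nonneg hl, abs_sub_comm]
      exact mul_le_mul_of_nonneg_left hd hl
    have e1 : l * (m - K (s.erase i)) = -(p i * u) := by rw [hm', hu]; ring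
    have e2 : l * (m - K (insert i s)) = (1 - p i) * u := by rw [hm', hu]; ring
    rw [e1] at g1
    rw [e2] at g2
    have hs := exp_step hp (h1 i) (hu1.trans (hlc i))
    have hc : p i * u ^ 2 ≤ l ^ 2 * (p i * c i ^ 2) := by
      have h2 : u ^ 2 ≤ (l * c i) ^ 2 := by
        rw [← sq_abs u]
        exact pow_le_pow_left₀ (abs_nonneg u) hu1 2
      calc p i * u ^ 2 ≤ p i * (l * c i) ^ 2 := mul_le_mul_of_nonneg_left h2 hp
        _ = l ^ 2 * (p i * c i ^ 2) := by ring
    have hE : 0 < Real.exp (l ^ 2 * ∑ i ∈ D, p i * c i ^ 2) := Real.exp_pos _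
    calc (1 - p i) * ED p D (fun t => Real.exp (l * (m - J t))) (s.erase i) +
          p i * ED p D (fun t => Real.exp (l * (m - J t))) (insert i s)
        ≤ ((1 - p i) * Real.exp (-(p i * u)) + p i * Real.exp ((1 - p i) * u)) *
            Real.exp (l ^ 2 * ∑ i ∈ D, p i * c i ^ 2) := by linarith
      _ ≤ Real.exp (p i * u ^ 2) * Real.exp (l ^ 2 * ∑ i ∈ D, p i * c i ^ 2) :=
          mul_le_mul_of_nonneg_right hs hE.le
      _ ≤ Real.exp (l ^ 2 * (p i * c i ^ 2)) * Real.exp (l ^ 2 * ∑ i ∈ D, p i * c i ^ 2) :=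
          mul_le_mul_of_nonneg_right (Real.exp_le_exp.2 hc) hE.le
      _ = Real.exp (l ^ 2 * ∑ i ∈ insert i D, p i * c i ^ 2) := by
          rw [← Real.exp_add, Finset.sum_insert hi, mul_add]

/-! ### the full expectation -/

variable [Fintype I]

/-- expectation -/
noncomputable def EE (p : I → ℝ) (J : Finset I → ℝ) : ℝ := ED p Finset.univ J ∅

theorem EE_eq (p : I → ℝ) (J : Finset I → ℝ) :
    EE p J = ∑ t : Finset I, pw p Finset.univ t * J t := by
  unfold EE ED
  rw [Finset.powerset_univ]
  apply Finset.sum_congr rfl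
  intro t _
  rw [Finset.empty_sdiff, Finset.empty_union]

theorem EE_prod (p a b : I → ℝ) :
    EE p (fun t => (∏ i ∈ t, a i) * ∏ i ∈ tᶜ, b i) = ∏ i, (p i * a i + (1 - p i) * b i) := by
  rw [EE_eq, Finset.prod_add, Finset.powerset_univ]
  apply Finset.sum_congr rfl
  intro t _
  unfold pw
  rw [Finset.prod_mul_distrib, Finset.prod_mul_distrib, Finset.compl_eq_univ_sdiff]
  ring

open Classical in
/-- probability that no element of `B` is on -/
theorem EE_avoid (p : I → ℝ) (B : Finset I) :
    EE p (fun t => if Disjoint t B then 1 else 0) = ∏ i ∈ B, (1 - p i) := by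
  have h := EE_prod p (fun i => if i ∈ B then 0 else 1) (fun _ => 1)
  have h1 : (fun t : Finset I => (∏ i ∈ t, if i ∈ B then (0 : ℝ) else 1) * ∏ i ∈ tᶜ, (1 : ℝ)) =
      fun t => if Disjoint t B then 1 else 0 := by
    funext t
    rw [Finset.prod_const_one, mul_one]
    by_cases hd : Disjoint t B
    · rw [if_pos hd]
      apply Finset.prod_eq_one
      intro i hi
      rw [if_neg (Finset.disjoint_left.1 hd hi)]
    · rw [if_neg hd]
      rw [Finset.not_disjoint_iff] at hd
      obtain ⟨i, hi, hiB⟩ := hd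
      exact Finset.prod_eq_zero hi (if_pos hiB)
  rw [h1] at h
  rw [h, ← Finset.prod_subset (Finset.subset_univ B)]
  · apply Finset.prod_congr rfl
    intro i hi
    rw [if_pos hi]
    ring
  · intro i _ hi
    rw [if_neg hi]
    ring

open Classical in
/-- probability that `j` is on and no element of `B` is on -/
theorem EE_avoid' (p : I → ℝ) (B : Finset I) {j : I} (hj : j ∉ B) :
    EE p (fun t => if j ∈ t ∧ Disjoint t B then 1 else 0) = p j * ∏ i ∈ B, (1 - p i) := by
  have h := EE_prod p (fun i => if i ∈ B then 0 else 1) (fun i => if i = j then 0 else 1)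
  have h1 : (fun t : Finset I => (∏ i ∈ t, if i ∈ B then (0 : ℝ) else 1) *
      ∏ i ∈ tᶜ, if i = j then (0 : ℝ) else 1) =
      fun t => if j ∈ t ∧ Disjoint t B then 1 else 0 := by
    funext t
    by_cases hd : j ∈ t ∧ Disjoint t B
    · rw [if_pos hd, Finset.prod_eq_one, Finset.prod_eq_one, mul_one]
      · intro i hi
        rw [if_neg]
        rintro rfl
        exact (Finset.mem_compl.1 hi) hd.1
      · intro i hi
        rw [if_neg (Finset.disjoint_left.1 hd.2 hi)]
    · rw [if_neg hd]
      by_cases hjt : j ∈ t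
      · have hd' : ¬ Disjoint t B := fun h => hd ⟨hjt, h⟩
        rw [Finset.not_disjoint_iff] at hd'
        obtain ⟨i, hi, hiB⟩ := hd'
        have hz : (∏ i ∈ t, if i ∈ B then (0 : ℝ) else 1) = 0 :=
          Finset.prod_eq_zero hi (if_pos hiB)
        rw [hz, zero_mul]
      · have hz : (∏ i ∈ tᶜ, if i = j then (0 : ℝ) else 1) = 0 :=
          Finset.prod_eq_zero (Finset.mem_compl.2 hjt) (if_pos rfl)
        rw [hz, mul_zero]
  rw [h1] at h
  rw [h]
  rw [← Finset.mul_prod_erase Finset.univ _ (Finset.mem_univ j), if_neg hj, if_pos rfl]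
  have h2 : B ⊆ Finset.univ.erase j := by
    intro i hi
    rw [Finset.mem_erase]
    refine ⟨?_, Finset.mem_univ _⟩
    rintro rfl
    exact hj hi
  rw [← Finset.prod_subset h2]
  · congr 1
    · ring
    · apply Finset.prod_congr rfl
      intro i hi
      have hij : i ≠ j := by
        rintro rfl
        exact hj hi
      rw [if_pos hi, if_neg hij]
      ring
  · intro i hi hiB
    rw [if_neg hiB, if_neg (Finset.mem_erase.1 hi).1]
    ring

/-- a point where finitely many functions with bounded differences are not much below average -/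
theorem exists_good {p : I → ℝ} (h0 : ∀ i, 0 ≤ p i) (h1 : ∀ i, p i ≤ 1) {ι : Type} [Fintype ι]
    [Nonempty ι] (J : ι → Finset I → ℝ) {c : I → ℝ}
    (h : ∀ a i s, |J a (insert i s) - J a (s.erase i)| ≤ c i) {l V : ℝ} (hl : 0 < l)
    (hlc : ∀ i, l * c i ≤ 1) (hV : l ^ 2 * ∑ i, p i * c i ^ 2 ≤ V) :
    ∃ s, ∀ a, EE p (J a) - (V + Real.log (Fintype.card ι)) / l ≤ J a s := by
  have hcard : (0 : ℝ) < Fintype.card ι := by exact_mod_cast Fintype.card_pos
  have hsum : EE p (fun t => ∑ a, Real.exp (l * (EE p (J a) - J a t))) ≤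
      Fintype.card ι * Real.exp V := by
    unfold EE
    rw [ED_sum]
    calc ∑ a, ED p Finset.univ (fun t => Real.exp (l * (ED p Finset.univ (J a) ∅ - J a t))) ∅
        ≤ ∑ _a : ι, Real.exp V := by
          apply Finset.sum_le_sum
          intro a _
          exact (ED_exp h0 h1 (h a) hl.le hlc Finset.univ ∅).trans (Real.exp_le_exp.2 hV)
      _ = Fintype.card ι * Real.exp V := by
          rw [Finset.sum_const, Finset.card_univ, nsmul_eq_mul]
  have hex : ∃ s, ∑ a, Real.exp (l * (EE p (J a) - J a s)) ≤ Fintype.card ι * Real.exp V := by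
    by_contra hc
    push Not at hc
    obtain ⟨s0⟩ : Nonempty (Finset I) := ⟨∅⟩
    -- the minimum exceeds the average
    obtain ⟨sm, hsm⟩ := Finite.exists_min
      (fun s : Finset I => ∑ a, Real.exp (l * (EE p (J a) - J a s)))
    have h2 : ∑ a, Real.exp (l * (EE p (J a) - J a sm)) ≤
        EE p (fun t => ∑ a, Real.exp (l * (EE p (J a) - J a t))) := by
      have h3 : EE p (fun _ => ∑ a, Real.exp (l * (EE p (J a) - J a sm))) =
          ∑ a, Real.exp (l * (EE p (J a) - J a sm)) := ED_const _ _ _ _
      rw [← h3]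
      exact ED_mono h0 h1 _ hsm _
    exact absurd (h2.trans hsum) (not_le.2 (hc sm))
  obtain ⟨s, hs⟩ := hex
  refine ⟨s, fun a => ?_⟩
  have h2 : Real.exp (l * (EE p (J a) - J a s)) ≤ Fintype.card ι * Real.exp V :=
    (Finset.single_le_sum (f := fun a => Real.exp (l * (EE p (J a) - J a s)))
      (fun b _ => (Real.exp_pos _).le) (Finset.mem_univ a)).trans hs
  have h3 := Real.log_le_log (Real.exp_pos _) h2
  rw [Real.log_exp, Real.log_mul hcard.ne' (Real.exp_pos _).ne', Real.log_exp] at h3
  have h4 : EE p (J a) - J a s ≤ (V + Real.log (Fintype.card ι)) / l := by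
    rw [le_div_iff₀ hl]
    linarith
  linarith

end Pool.Agent.H12.Nib
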