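import Pool.Agent.H12.Nib.Round

/-!
One round of the nibble: the objective function, its expectation and its differences.
-/

open Finset

namespace Pool.Agent.H12.Nib

set_option linter.unusedSectionVars false

variable {X H : Type} [Fintype X] [Fintype H] [DecidableEq X] [DecidableEq H]

/-- the objective function of a round -/
noncomputable def JJ (S : H → Finset X) (w : H → ℝ) (θ γ a Φ : ℝ) (f : H → ℝ)
    (t : Finset (H ⊕ X)) : ℝ :=
  ∑ e ∈ m1 S t, f e + a * ((1 + γ)⁻¹ * (∑ e, if sv S t e then w1 S w θ e * f e else 0) -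
    Φ * ∑ v, max 0 (L1 S w θ t v - 1 - γ))

section Round

variable {S : H → Finset X} {w : H → ℝ} {θ : ℝ}
variable {k : ℕ} {δ : ℝ} (hG : Good k δ S w) (hθ : 0 < θ) (hθ2 : θ ≤ 1 / 2)
  (hθk : ((1 - θ)⁻¹) ^ (k - 1) ≤ 2)
include hG hθ hθ2

theorem self_mem_mts (e : H) : e ∈ mts S (S e) := by
  rw [mem_mts]
  intro h
  obtain ⟨v, hv⟩ := hG.ne e
  exact Finset.disjoint_left.1 h hv hv

/-- expected weight of the matching -/
theorem EE_m1 {f : H → ℝ} (hf : ∀ e, 0 ≤ f e) :
    θ * (1 - k * θ) * ∑ e, w e * f e ≤ EE (pp S w θ) (fun t => ∑ e ∈ m1 S t, f e) := by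
  classical
  have h1 : (fun t : Finset (H ⊕ X) => ∑ e ∈ m1 S t, f e) = fun t => ∑ e : H, f e *
      (if Sum.inl e ∈ t ∧ Disjoint t (((mts S (S e)).erase e).disjSum ∅) then 1 else 0) := by
    funext t
    unfold m1
    rw [Finset.sum_filter]
    apply Finset.sum_congr rfl
    intro e _
    split_ifs <;> simp
  rw [h1]
  unfold EE
  rw [ED_sum, Finset.mul_sum]
  apply Finset.sum_le_sum
  intro e _
  rw [ED_const_mul]
  have h2 := EE_avoid' (pp S w θ) (((mts S (S e)).erase e).disjSum (∅ : Finset X))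
    (j := Sum.inl e) (by simp)
  unfold EE at h2
  have h3 : ED (pp S w θ) Finset.univ (fun t => if Sum.inl e ∈ t ∧
      Disjoint t (((mts S (S e)).erase e).disjSum (∅ : Finset X)) then (1 : ℝ) else 0) ∅ =
      pp S w θ (Sum.inl e) * ∏ i ∈ ((mts S (S e)).erase e).disjSum (∅ : Finset X),
        (1 - pp S w θ i) := by
    rw [← h2]
  rw [h3]
  rw [prod_blk hG hθ hθ2]
  simp only [Finset.card_empty, pow_zero, Finset.prod_empty, div_one, mul_one]
  have h4 : pp S w θ (Sum.inl e) = θ * w e := rfl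
  rw [h4]
  have h5 := prod_one_sub ((mts S (S e)).erase e) (fun g => θ * w g)
    (fun g _ => q_nonneg hG hθ hθ2 g) (fun g _ => (q_le hG hθ hθ2 g).trans (by norm_num))
  have h6 : ∑ g ∈ (mts S (S e)).erase e, θ * w g ≤ k * θ := by
    rw [← Finset.mul_sum, mul_comm (k : ℝ) θ]
    apply mul_le_mul_of_nonneg_left _ hθ.le
    refine le_trans ?_ (sum_mts_le hG hθ hθ2 e)
    exact Finset.sum_le_sum_of_subset_of_nonneg (Finset.erase_subset _ _)
      (fun g _ _ => hG.nn g)
  have h7 : 1 - k * θ ≤ ∏ g ∈ (mts S (S e)).erase e, (1 - θ * w g) := by linarith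
  have h8 : 0 ≤ f e * (θ * w e) := mul_nonneg (hf e) (q_nonneg hG hθ hθ2 e)
  have h9 := mul_le_mul_of_nonneg_left h7 h8
  calc θ * (1 - k * θ) * (w e * f e) = f e * (θ * w e) * (1 - k * θ) := by ring
    _ ≤ _ := h9
    _ = _ := by ring

/-- expected weight of the survivors -/
theorem EE_sv {f : H → ℝ} (hf : ∀ e, 0 ≤ f e) :
    (1 - θ) * ∑ e, w e * f e ≤
      EE (pp S w θ) (fun t => ∑ e, if sv S t e then w1 S w θ e * f e else 0) := by
  classical
  unfold EE
  rw [ED_sum, Finset.mul_sum]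
  apply Finset.sum_le_sum
  intro e _
  have h1 : (fun t : Finset (H ⊕ X) => if sv S t e then w1 S w θ e * f e else 0) =
      fun t => (w1 S w θ e * f e) *
        (if Disjoint t ((mts S (S e)).disjSum (S e)) then 1 else 0) := by
    funext t
    by_cases h : sv S t e
    · rw [if_pos h, if_pos (show Disjoint t ((mts S (S e)).disjSum (S e)) from h), mul_one]
    · rw [if_neg h, if_neg (show ¬ Disjoint t ((mts S (S e)).disjSum (S e)) from h), mul_zero]
  rw [h1, ED_const_mul]
  have h2 := EE_avoid (pp S w θ) ((mts S (S e)).disjSum (S e))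
  unfold EE at h2
  have h3 : ED (pp S w θ) Finset.univ (fun t => if
      Disjoint t ((mts S (S e)).disjSum (S e)) then (1 : ℝ) else 0) ∅ =
      ∏ i ∈ (mts S (S e)).disjSum (S e), (1 - pp S w θ i) := by
    rw [← h2]
  rw [h3]
  have h4 := blk_ge hG hθ hθ2 (G := mts S (S e)) (T := S e) (Finset.Subset.refl _)
  have h5 : 0 ≤ w1 S w θ e * f e := mul_nonneg (w1_nonneg hG hθ hθ2 e) (hf e)
  have h6 := mul_le_mul_of_nonneg_left h4 h5
  have h7 := w1_mul_pow' hG hθ hθ2 e
  calc (1 - θ) * (w e * f e) = (w e * (1 - θ)) * f e := by ring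
    _ = w1 S w θ e * f e * (1 - θ) ^ (S e).card := by rw [← h7]; ring
    _ ≤ _ := h6

theorem sum_ld : ∑ v, ld S w v ≤ k * ∑ e, w e := by
  unfold ld
  simp only [Finset.sum_filter]
  rw [Finset.sum_comm, Finset.mul_sum]
  apply Finset.sum_le_sum
  intro e _
  rw [← Finset.sum_filter, Finset.sum_const, nsmul_eq_mul]
  apply mul_le_mul_of_nonneg_right _ (hG.nn e)
  have h : (Finset.univ.filter fun v => v ∈ S e) = S e := by
    ext v
    simp
  rw [h]
  exact_mod_cast hG.card e

include hθk in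
/-- expectation of the objective -/
theorem EE_JJ (hδ : 0 ≤ δ) {γ a Φ : ℝ} (hγ : 0 < γ) (ha : 0 ≤ a) (hΦ : 0 ≤ Φ) {f : H → ℝ}
    (hf : ∀ e, 0 ≤ f e) :
    θ * (1 - k * θ) * ∑ e, w e * f e + a * ((1 + γ)⁻¹ * ((1 - θ) * ∑ e, w e * f e) -
      Φ * ((Real.exp (8 * θ * k ^ 2 * δ) - 1 + 4 * (k * δ)) / (4 * γ) * (k * ∑ e, w e))) ≤
      EE (pp S w θ) (JJ S w θ γ a Φ f) := by
  have h1 : EE (pp S w θ) (JJ S w θ γ a Φ f) = EE (pp S w θ) (fun t => ∑ e ∈ m1 S t, f e) +
      a * ((1 + γ)⁻¹ * EE (pp S w θ) (fun t => ∑ e, if sv S t e then w1 S w θ e * f e else 0) +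
        (-Φ) * ∑ v, EE (pp S w θ) (fun t => max 0 (L1 S w θ t v - 1 - γ))) := by
    unfold EE
    rw [← ED_sum, ← ED_const_mul, ← ED_const_mul, ← ED_add, ← ED_const_mul, ← ED_add]
    congr 1
    funext t
    unfold JJ
    ring
  rw [h1]
  have h2 := EE_m1 hG hθ hθ2 hf
  have h3 := EE_sv hG hθ hθ2 hf
  have h4 : ∑ v, EE (pp S w θ) (fun t => max 0 (L1 S w θ t v - 1 - γ)) ≤
      (Real.exp (8 * θ * k ^ 2 * δ) - 1 + 4 * (k * δ)) / (4 * γ) * (k * ∑ e, w e) := by
    refine (Finset.sum_le_sum fun v _ => EE_over hG hθ hθ2 hθk hδ hγ v).trans ?_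
    rw [← Finset.mul_sum]
    apply mul_le_mul_of_nonneg_left (sum_ld hG hθ hθ2)
    have h5 : 1 ≤ Real.exp (8 * θ * k ^ 2 * δ) := Real.one_le_exp (by positivity)
    apply div_nonneg _ (by positivity)
    have h6 : 0 ≤ (k : ℝ) * δ := by positivity
    linarith
  have h5 : 0 ≤ (1 + γ)⁻¹ := by positivity
  have h6 := mul_le_mul_of_nonneg_left h3 h5
  have h7 := mul_le_mul_of_nonneg_left h4 hΦ
  have h8 : (1 + γ)⁻¹ * ((1 - θ) * ∑ e, w e * f e) -
      Φ * ((Real.exp (8 * θ * k ^ 2 * δ) - 1 + 4 * (k * δ)) / (4 * γ) * (k * ∑ e, w e)) ≤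
      (1 + γ)⁻¹ * EE (pp S w θ) (fun t => ∑ e, if sv S t e then w1 S w θ e * f e else 0) +
        (-Φ) * ∑ v, EE (pp S w θ) (fun t => max 0 (L1 S w θ t v - 1 - γ)) := by
    linarith
  have h9 := mul_le_mul_of_nonneg_left h8 ha
  linarith

/-! ### differences -/

theorem sv_anti {t t' : Finset (H ⊕ X)} (h : t ⊆ t') {e : H} (he : sv S t' e) : sv S t e :=
  Finset.disjoint_of_subset_left h he

include hθk in
/-- weight of the edges which die when `i` is switched on -/
theorem dead_le {F : H → ℝ} {B : ℝ} (hB : 0 ≤ B) (hF : ∀ e, F e ≤ B * w1 S w θ e)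
    (t : Finset (H ⊕ X)) (i : H ⊕ X) :
    ∑ e, ((if sv S (t.erase i) e then F e else 0) - if sv S (insert i t) e then F e else 0) ≤
      B * Sum.elim (fun _ => 2 * (k : ℝ)) (fun v => 2 * ld S w v) i := by
  have hpt : ∀ e, ((if sv S (t.erase i) e then F e else 0) -
      if sv S (insert i t) e then F e else 0) ≤
      B * (2 * if i ∈ (mts S (S e)).disjSum (S e) then w e else 0) := by
    intro e
    by_cases h2 : sv S (insert i t) e
    · have h1 : sv S (t.erase i) e := sv_anti hG hθ hθ2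
        ((Finset.erase_subset _ _).trans (Finset.subset_insert _ _)) h2
      rw [if_pos h1, if_pos h2, sub_self]
      split_ifs
      · exact mul_nonneg hB (mul_nonneg (by norm_num) (hG.nn e))
      · simp
    · rw [if_neg h2, sub_zero]
      by_cases h1 : sv S (t.erase i) e
      · have hi : i ∈ (mts S (S e)).disjSum (S e) := by
          by_contra hi
          apply h2
          unfold sv at h1 ⊢
          rw [Finset.disjoint_left] at h1 ⊢
          intro j hj hj'
          rw [Finset.mem_insert] at hj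
          rcases hj with rfl | hj
          · exact hi hj'
          · by_cases hji : j = i
            · rw [hji] at hj'
              exact hi hj'
            · exact h1 (Finset.mem_erase.2 ⟨hji, hj⟩) hj'
        rw [if_pos h1, if_pos hi]
        exact (hF e).trans (mul_le_mul_of_nonneg_left (w1_le hG hθ hθ2 hθk e) hB)
      · rw [if_neg h1]
        split_ifs
        · exact mul_nonneg hB (mul_nonneg (by norm_num) (hG.nn e))
        · simp
  refine (Finset.sum_le_sum fun e _ => hpt e).trans ?_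
  rw [← Finset.mul_sum, ← Finset.mul_sum]
  apply mul_le_mul_of_nonneg_left _ hB
  rcases i with g | v
  · change 2 * _ ≤ 2 * (k : ℝ)
    apply mul_le_mul_of_nonneg_left _ (by norm_num)
    have h3 : ∑ e, (if (Sum.inl g : H ⊕ X) ∈ (mts S (S e)).disjSum (S e) then w e else 0) =
        ∑ e ∈ mts S (S g), w e := by
      rw [← Finset.sum_filter]
      apply Finset.sum_congr _ (fun _ _ => rfl)
      ext e
      simp only [Finset.mem_filter, Finset.mem_univ, true_and, Finset.inl_mem_disjSum, mem_mts]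
      rw [disjoint_comm]
    rw [h3]
    exact sum_mts_le hG hθ hθ2 g
  · change 2 * _ ≤ 2 * ld S w v
    apply mul_le_mul_of_nonneg_left _ (by norm_num)
    apply le_of_eq
    unfold ld
    rw [← Finset.sum_filter]
    apply Finset.sum_congr _ (fun _ _ => rfl)
    ext e
    simp

theorem dead_nonneg {F : H → ℝ} (hF : ∀ e, 0 ≤ F e) (t : Finset (H ⊕ X)) (i : H ⊕ X) :
    0 ≤ ∑ e, ((if sv S (t.erase i) e then F e else 0) - if sv S (insert i t) e then F e else 0) := by
  apply Finset.sum_nonneg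
  intro e _
  by_cases h2 : sv S (insert i t) e
  · have h1 : sv S (t.erase i) e := sv_anti hG hθ hθ2
      ((Finset.erase_subset _ _).trans (Finset.subset_insert _ _)) h2
    rw [if_pos h1, if_pos h2, sub_self]
  · rw [if_neg h2, sub_zero]
    split_ifs
    · exact hF e
    · exact le_refl _

theorem sum_L1 (t : Finset (H ⊕ X)) :
    ∑ v, L1 S w θ t v = ∑ e, if sv S t e then w1 S w θ e * (S e).card else 0 := by
  unfold L1
  simp only [Finset.sum_filter]
  rw [Finset.sum_comm]
  apply Finset.sum_congr rfl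
  intro e _
  rw [← Finset.sum_filter, Finset.sum_const, nsmul_eq_mul]
  have h : (Finset.univ.filter fun v => v ∈ S e) = S e := by
    ext v
    simp
  rw [h]
  split_ifs
  · ring
  · simp

theorem L1_anti {t t' : Finset (H ⊕ X)} (h : t ⊆ t') (v : X) : L1 S w θ t' v ≤ L1 S w θ t v := by
  unfold L1
  apply Finset.sum_le_sum
  intro e _
  by_cases h2 : sv S t' e
  · rw [if_pos h2, if_pos (sv_anti hG hθ hθ2 h h2)]
  · rw [if_neg h2]
    split_ifs
    · exact w1_nonneg hG hθ hθ2 e
    · exact le_refl _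

/-- change of the matching when the edge `g` is switched on -/
theorem m1_diff {f : H → ℝ} {Φ : ℝ} (hf : ∀ e, 0 ≤ f e) (hfΦ : ∀ e, f e ≤ Φ) (hk : 1 ≤ k)
    (t : Finset (H ⊕ X)) (g : H) :
    |∑ e ∈ m1 S (insert (Sum.inl g) t), f e - ∑ e ∈ m1 S (t.erase (Sum.inl g)), f e| ≤ k * Φ := by
  have hΦ : 0 ≤ Φ := (hf g).trans (hfΦ g)
  set M := m1 S (t.erase (Sum.inl g)) with hM
  set M' := m1 S (insert (Sum.inl g) t) with hM'
  have h1 : M' \ {g} = M.filter fun e => Disjoint (S g) (S e) := by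
    ext e
    simp only [hM, hM', m1, Finset.mem_sdiff, Finset.mem_filter, Finset.mem_univ, true_and,
      Finset.mem_singleton, Finset.mem_insert, Finset.mem_erase]
    constructor
    · rintro ⟨⟨he, hd⟩, hne⟩
      have hne' : (Sum.inl e : H ⊕ X) ≠ Sum.inl g := fun h => hne (Sum.inl_injective h)
      refine ⟨⟨⟨hne', he.resolve_left hne'⟩, ?_⟩, ?_⟩
      · exact Finset.disjoint_of_subset_left
          ((Finset.erase_subset _ _).trans (Finset.subset_insert _ _)) hd
      · by_contra hc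
        have h2 : (Sum.inl g : H ⊕ X) ∈ ((mts S (S e)).erase e).disjSum ∅ := by
          rw [Finset.inl_mem_disjSum, Finset.mem_erase, mem_mts]
          exact ⟨fun h => hne h.symm, hc⟩
        exact Finset.disjoint_left.1 hd (Finset.mem_insert_self _ _) h2
    · rintro ⟨⟨⟨hne', he⟩, hd⟩, hdg⟩
      have hne : e ≠ g := fun h => hne' (by rw [h])
      refine ⟨⟨Or.inr he, ?_⟩, hne⟩
      rw [Finset.disjoint_left] at hd ⊢
      intro j hj hj'
      rw [Finset.mem_insert] at hj
      by_cases hjg : j = Sum.inl g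
      · rw [hjg, Finset.inl_mem_disjSum, Finset.mem_erase, mem_mts] at hj'
        exact hj'.2 hdg
      · exact hd (Finset.mem_erase.2 ⟨hjg, hj.resolve_left hjg⟩) hj'
  have hgM : g ∉ M := by
    simp [hM, m1]
  -- the edges of `M` meeting `g`
  have h3 : ∑ e ∈ M, f e = ∑ e ∈ M.filter (fun e => Disjoint (S g) (S e)), f e +
      ∑ e ∈ M.filter (fun e => ¬ Disjoint (S g) (S e)), f e :=
    (Finset.sum_filter_add_sum_filter_not M _ f).symm
  have h4 : ∑ e ∈ M', f e = ∑ e ∈ M.filter (fun e => Disjoint (S g) (S e)), f e +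
      ∑ e ∈ M' ∩ {g}, f e := by
    rw [← h1, ← Finset.sum_union (Finset.disjoint_sdiff_inter M' {g}),
      Finset.sdiff_union_inter]
  have h5 : 0 ≤ ∑ e ∈ M' ∩ {g}, f e := Finset.sum_nonneg fun e _ => hf e
  have h6 : ∑ e ∈ M' ∩ {g}, f e ≤ Φ := by
    calc ∑ e ∈ M' ∩ {g}, f e ≤ ∑ e ∈ ({g} : Finset H), f e :=
          Finset.sum_le_sum_of_subset_of_nonneg Finset.inter_subset_right (fun e _ _ => hf e)
      _ = f g := Finset.sum_singleton _ _
      _ ≤ Φ := hfΦ g
  have h7 : 0 ≤ ∑ e ∈ M.filter (fun e => ¬ Disjoint (S g) (S e)), f e :=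
    Finset.sum_nonneg fun e _ => hf e
  have h8 : ∑ e ∈ M.filter (fun e => ¬ Disjoint (S g) (S e)), f e ≤ k * Φ := by
    have h9 : (M.filter (fun e => ¬ Disjoint (S g) (S e))).card ≤ k := by
      refine le_trans ?_ (hG.card g)
      -- choose a common vertex
      have hex : ∀ e, ¬ Disjoint (S g) (S e) → ∃ v, v ∈ S g ∧ v ∈ S e := by
        intro e he
        rw [Finset.not_disjoint_iff] at he
        exact he
      classical
      let φ : H → X := fun e => if h : ¬ Disjoint (S g) (S e) then (hex e h).choose else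
        (hG.ne g).choose
      have hφ : ∀ e, ¬ Disjoint (S g) (S e) → φ e ∈ S g ∧ φ e ∈ S e := by
        intro e he
        have : φ e = (hex e he).choose := dif_pos he
        rw [this]
        exact (hex e he).choose_spec
      apply Finset.card_le_card_of_injOn φ
      · intro e he
        exact (hφ e (Finset.mem_filter.1 he).2).1
      · intro e he e' he' hee
        by_contra hne
        have h10 := hφ e (Finset.mem_filter.1 he).2
        have h11 := hφ e' (Finset.mem_filter.1 he').2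
        have h12 := (Finset.mem_filter.1 he).1
        have h13 := (Finset.mem_filter.1 he').1
        simp only [hM, m1, Finset.mem_filter, Finset.mem_univ, true_and] at h12 h13
        have h14 : (Sum.inl e' : H ⊕ X) ∈ ((mts S (S e)).erase e).disjSum ∅ := by
          rw [Finset.inl_mem_disjSum, Finset.mem_erase, mem_mts]
          refine ⟨fun h => hne h.symm, ?_⟩
          rw [Finset.not_disjoint_iff]
          exact ⟨φ e, hee ▸ h11.2, h10.2⟩
        exact Finset.disjoint_left.1 h12.2 h13.1 h14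
    calc ∑ e ∈ M.filter (fun e => ¬ Disjoint (S g) (S e)), f e
        ≤ ∑ _e ∈ M.filter (fun e => ¬ Disjoint (S g) (S e)), Φ :=
          Finset.sum_le_sum fun e _ => hfΦ e
      _ = (M.filter (fun e => ¬ Disjoint (S g) (S e))).card * Φ := by
          rw [Finset.sum_const, nsmul_eq_mul]
      _ ≤ k * Φ := mul_le_mul_of_nonneg_right (by exact_mod_cast h9) hΦ
  have h15 : Φ ≤ k * Φ := by
    have : (1 : ℝ) ≤ k := by exact_mod_cast hk
    nlinarith
  rw [h3, h4, abs_le]
  constructor <;> linarith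

theorem m1_diff' (t : Finset (H ⊕ X)) (v : X) :
    m1 S (insert (Sum.inr v) t) = m1 S (t.erase (Sum.inr v)) := by
  ext e
  simp only [m1, Finset.mem_filter, Finset.mem_univ, true_and, Finset.mem_insert,
    Finset.mem_erase]
  constructor
  · rintro ⟨h1, h2⟩
    refine ⟨⟨by simp, h1.resolve_left (by simp)⟩, ?_⟩
    exact Finset.disjoint_of_subset_left
      ((Finset.erase_subset _ _).trans (Finset.subset_insert _ _)) h2
  · rintro ⟨h1, h2⟩
    refine ⟨Or.inr h1.2, ?_⟩
    rw [Finset.disjoint_left] at h2 ⊢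
    intro j hj hj'
    rw [Finset.mem_insert] at hj
    rcases hj with rfl | hj
    · simp at hj'
    · by_cases hji : j = Sum.inr v
      · rw [hji] at hj'
        simp at hj'
      · exact h2 (Finset.mem_erase.2 ⟨hji, hj⟩) hj'

end Round

end Pool.Agent.H12.Nib
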