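import Pool.Agent.H12.Nib.Bern

/-!
One round of the nibble for weighted hypergraphs: probabilities.
-/

open Finset

namespace Pool.Agent.H12.Nib

set_option linter.unusedSectionVars false

variable {X H : Type} [Fintype X] [Fintype H] [DecidableEq X] [DecidableEq H]

/-- load of a vertex -/
def ld (S : H → Finset X) (w : H → ℝ) (v : X) : ℝ := ∑ e with v ∈ S e, w e

/-- codegree -/
def cd (S : H → Finset X) (w : H → ℝ) (u v : X) : ℝ := ∑ e with (u ∈ S e ∧ v ∈ S e), w e

/-- the hypotheses on a weighted hypergraph -/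
structure Good (k : ℕ) (δ : ℝ) (S : H → Finset X) (w : H → ℝ) : Prop where
  ne : ∀ e, (S e).Nonempty
  card : ∀ e, (S e).card ≤ k
  nn : ∀ e, 0 ≤ w e
  load : ∀ v, ld S w v ≤ 1
  codeg : ∀ u v, u ≠ v → cd S w u v ≤ δ

section Round

variable (S : H → Finset X) (w : H → ℝ) (θ : ℝ)

/-- product over the edges at `v` -/
noncomputable def NN (v : X) : ℝ := ∏ g with v ∈ S g, (1 - θ * w g)

/-- the probabilities -/
noncomputable def pp : H ⊕ X → ℝ := Sum.elim (fun g => θ * w g) (fun v => 1 - (1 - θ) / NN S w θ v)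

/-- edges meeting `T` -/
def mts (T : Finset X) : Finset H := Finset.univ.filter fun g => ¬ Disjoint (S g) T

/-- edges meeting `T` but not containing `v` -/
def mtv (v : X) (T : Finset X) : Finset H := Finset.univ.filter fun g => v ∉ S g ∧ ¬ Disjoint (S g) T

variable {S w θ}

theorem mem_mts {T : Finset X} {g : H} : g ∈ mts S T ↔ ¬ Disjoint (S g) T := by
  unfold mts
  simp

theorem mem_mtv {v : X} {T : Finset X} {g : H} :
    g ∈ mtv S v T ↔ v ∉ S g ∧ ¬ Disjoint (S g) T := by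
  unfold mtv
  simp

theorem w_le {k : ℕ} {δ : ℝ} (hG : Good k δ S w) (e : H) : w e ≤ 1 := by
  obtain ⟨v, hv⟩ := hG.ne e
  refine le_trans ?_ (hG.load v)
  exact Finset.single_le_sum (f := w) (fun g _ => hG.nn g)
    (Finset.mem_filter.2 ⟨Finset.mem_univ e, hv⟩)

theorem ld_nonneg {k : ℕ} {δ : ℝ} (hG : Good k δ S w) (v : X) : 0 ≤ ld S w v :=
  Finset.sum_nonneg fun g _ => hG.nn g

/-- product of `1 - x` -/
theorem prod_one_sub {α : Type} [DecidableEq α] (A : Finset α) (x : α → ℝ) (h0 : ∀ a ∈ A, 0 ≤ x a)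
    (h1 : ∀ a ∈ A, x a ≤ 1) : 1 - ∑ a ∈ A, x a ≤ ∏ a ∈ A, (1 - x a) := by
  induction A using Finset.induction_on with
  | empty => simp
  | insert a A ha ih =>
    rw [Finset.sum_insert ha, Finset.prod_insert ha]
    have h2 := ih (fun b hb => h0 b (Finset.mem_insert_of_mem hb))
      (fun b hb => h1 b (Finset.mem_insert_of_mem hb))
    have h3 := h0 a (Finset.mem_insert_self a A)
    have h4 := h1 a (Finset.mem_insert_self a A)
    have h5 : ∏ b ∈ A, (1 - x b) ≤ 1 := Finset.prod_le_one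
      (fun b hb => sub_nonneg.2 (h1 b (Finset.mem_insert_of_mem hb)))
      (fun b hb => sub_le_self 1 (h0 b (Finset.mem_insert_of_mem hb)))
    have h6 : 0 ≤ ∏ b ∈ A, (1 - x b) := Finset.prod_nonneg
      (fun b hb => sub_nonneg.2 (h1 b (Finset.mem_insert_of_mem hb)))
    nlinarith

variable {k : ℕ} {δ : ℝ} (hG : Good k δ S w) (hθ : 0 < θ) (hθ2 : θ ≤ 1 / 2)
include hG hθ hθ2

theorem q_nonneg (g : H) : 0 ≤ θ * w g := mul_nonneg hθ.le (hG.nn g)

theorem q_le (g : H) : θ * w g ≤ 1 / 2 := by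
  have h := w_le hG g
  have h2 := hG.nn g
  nlinarith

theorem NN_ge (v : X) : 1 - θ ≤ NN S w θ v := by
  unfold NN
  have h := prod_one_sub (Finset.univ.filter fun g => v ∈ S g) (fun g => θ * w g)
    (fun g _ => q_nonneg hG hθ hθ2 g) (fun g _ => (q_le hG hθ hθ2 g).trans (by norm_num))
  refine le_trans ?_ h
  rw [← Finset.mul_sum]
  have h2 := hG.load v
  unfold ld at h2
  nlinarith

theorem NN_pos (v : X) : 0 < NN S w θ v :=
  lt_of_lt_of_le (by linarith) (NN_ge hG hθ hθ2 v)

theorem pp_nonneg (i : H ⊕ X) : 0 ≤ pp S w θ i := by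
  rcases i with g | v
  · exact q_nonneg hG hθ hθ2 g
  · change 0 ≤ 1 - (1 - θ) / NN S w θ v
    rw [sub_nonneg, div_le_one (NN_pos hG hθ hθ2 v)]
    exact NN_ge hG hθ hθ2 v

theorem pp_le_one (i : H ⊕ X) : pp S w θ i ≤ 1 := by
  rcases i with g | v
  · exact (q_le hG hθ hθ2 g).trans (by norm_num)
  · change 1 - (1 - θ) / NN S w θ v ≤ 1
    have h : 0 ≤ (1 - θ) / NN S w θ v := div_nonneg (by linarith) (NN_pos hG hθ hθ2 v).le
    linarith

/-- product over a blocking set -/
theorem prod_blk (G : Finset H) (T : Finset X) :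
    ∏ i ∈ G.disjSum T, (1 - pp S w θ i) =
      (∏ g ∈ G, (1 - θ * w g)) * ((1 - θ) ^ T.card / ∏ v ∈ T, NN S w θ v) := by
  rw [Finset.prod_disjSum]
  congr 1
  have h : ∀ v ∈ T, 1 - pp S w θ (Sum.inr v) = (1 - θ) / NN S w θ v := by
    intro v _
    change 1 - (1 - (1 - θ) / NN S w θ v) = _
    ring
  rw [Finset.prod_congr rfl h, Finset.prod_div_distrib, Finset.prod_const]

/-- product over the vertices of `T` -/
theorem prod_NN (T : Finset X) :
    ∏ v ∈ T, NN S w θ v = ∏ g : H, (1 - θ * w g) ^ (T ∩ S g).card := by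
  unfold NN
  simp only [Finset.prod_filter]
  rw [Finset.prod_comm]
  apply Finset.prod_congr rfl
  intro g _
  rw [← Finset.prod_filter, Finset.prod_const]
  congr 2

theorem prod_NN_pos (T : Finset X) : 0 < ∏ v ∈ T, NN S w θ v :=
  Finset.prod_pos fun v _ => NN_pos hG hθ hθ2 v

theorem blk_ge {G : Finset H} {T : Finset X} (hGT : G ⊆ mts S T) :
    (1 - θ) ^ T.card ≤ ∏ i ∈ G.disjSum T, (1 - pp S w θ i) := by
  rw [prod_blk hG hθ hθ2, mul_div_assoc', le_div_iff₀ (prod_NN_pos hG hθ hθ2 T), mul_comm]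
  apply mul_le_mul_of_nonneg_right _ (pow_nonneg (by linarith) _)
  rw [prod_NN hG hθ hθ2]
  have h1 : ∏ g ∈ G, (1 - θ * w g) = ∏ g : H, if g ∈ G then (1 - θ * w g) else 1 := by
    rw [Finset.prod_ite_mem, Finset.univ_inter]
  rw [h1]
  apply Finset.prod_le_prod
  · intro g _
    exact pow_nonneg (by linarith [q_le hG hθ hθ2 g]) _
  · intro g _
    have h0 : 0 ≤ 1 - θ * w g := by linarith [q_le hG hθ hθ2 g]
    have h2 : 1 - θ * w g ≤ 1 := by linarith [q_nonneg hG hθ hθ2 g]
    split_ifs with hg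
    · have h3 := mem_mts.1 (hGT hg)
      have h4 : (T ∩ S g).card ≠ 0 := by
        intro h5
        apply h3
        rw [Finset.card_eq_zero] at h5
        rw [Finset.disjoint_iff_inter_eq_empty, Finset.inter_comm]
        exact h5
      exact pow_le_of_le_one h0 h2 h4
    · exact pow_le_one₀ h0 h2

theorem sum_m_le (hδ : 0 ≤ δ) (T : Finset X) :
    ∑ g : H, w g * (((T ∩ S g).card - 1 : ℕ) : ℝ) ≤ (T.card : ℝ) ^ 2 * δ := by
  have h1 : ∑ g : H, w g * (((T ∩ S g).card - 1 : ℕ) : ℝ) ≤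
      ∑ g : H, w g * ((T ∩ S g).offDiag.card : ℝ) := by
    apply Finset.sum_le_sum
    intro g _
    apply mul_le_mul_of_nonneg_left _ (hG.nn g)
    rw [Finset.offDiag_card]
    have h2 : (T ∩ S g).card - 1 ≤ (T ∩ S g).card * (T ∩ S g).card - (T ∩ S g).card := by
      rcases Nat.eq_zero_or_pos (T ∩ S g).card with h | h
      · rw [h]
      · obtain ⟨m, hm⟩ := Nat.exists_eq_succ_of_ne_zero h.ne'
        rw [hm]
        simp only [Nat.succ_eq_add_one, Nat.add_sub_cancel]
        have : (m + 1) * (m + 1) - (m + 1) = m * (m + 1) := by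
          rw [Nat.sub_eq_of_eq_add]; ring
        rw [this]
        nlinarith
    exact_mod_cast h2
  refine h1.trans ?_
  have h3 : ∑ g : H, w g * ((T ∩ S g).offDiag.card : ℝ) = ∑ x ∈ T.offDiag, cd S w x.1 x.2 := by
    unfold cd
    simp only [Finset.sum_filter]
    rw [Finset.sum_comm]
    apply Finset.sum_congr rfl
    intro g _
    rw [← Finset.sum_filter, Finset.sum_const, nsmul_eq_mul, mul_comm]
    congr 3
    ext x
    simp only [Finset.mem_offDiag, Finset.mem_inter, Finset.mem_filter]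
    tauto
  rw [h3]
  have h4 : ∑ x ∈ T.offDiag, cd S w x.1 x.2 ≤ ∑ _x ∈ T.offDiag, δ := by
    apply Finset.sum_le_sum
    intro x hx
    exact hG.codeg _ _ (Finset.mem_offDiag.1 hx).2.2
  refine h4.trans ?_
  rw [Finset.sum_const, nsmul_eq_mul]
  apply mul_le_mul_of_nonneg_right _ hδ
  rw [Finset.offDiag_card, sq]
  have : T.card * T.card - T.card ≤ T.card * T.card := Nat.sub_le _ _
  exact_mod_cast this

theorem one_le_r (g : H) : 1 ≤ (1 - θ * w g) * Real.exp (2 * (θ * w g)) := by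
  have h0 := q_nonneg hG hθ hθ2 g
  have h1 := q_le hG hθ hθ2 g
  have h2 : 2 * (θ * w g) + 1 ≤ Real.exp (2 * (θ * w g)) := Real.add_one_le_exp _
  nlinarith

theorem blk_le (hδ : 0 ≤ δ) {v : X} {T : Finset X} (hv : v ∉ T) (hT : (insert v T).card ≤ 2 * k) :
    ∏ i ∈ (mtv S v T).disjSum T, (1 - pp S w θ i) ≤
      (1 - θ) ^ T.card * Real.exp (8 * θ * k ^ 2 * δ) := by
  rw [prod_blk hG hθ hθ2, mul_div_assoc', div_le_iff₀ (prod_NN_pos hG hθ hθ2 T), mul_assoc,
    mul_comm]
  apply mul_le_mul_of_nonneg_left _ (pow_nonneg (by linarith) _)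
  rw [prod_NN hG hθ hθ2]
  have h1 : ∏ g ∈ mtv S v T, (1 - θ * w g) = ∏ g : H, if g ∈ mtv S v T then (1 - θ * w g) else 1 := by
    rw [Finset.prod_ite_mem, Finset.univ_inter]
  rw [h1]
  have h2 : Real.exp (2 * θ * ∑ g : H, w g * (((insert v T ∩ S g).card - 1 : ℕ) : ℝ)) ≤
      Real.exp (8 * θ * k ^ 2 * δ) := by
    apply Real.exp_le_exp.2
    have h3 := sum_m_le hG hθ hθ2 hδ (insert v T)
    have h4 : ((insert v T).card : ℝ) ^ 2 ≤ 4 * (k : ℝ) ^ 2 := by
      have h5 : ((insert v T).card : ℝ) ≤ 2 * k := by exact_mod_cast hT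
      have h6 : (0 : ℝ) ≤ ((insert v T).card : ℝ) := Nat.cast_nonneg _
      nlinarith
    have h5 := mul_le_mul_of_nonneg_right h4 hδ
    have h6 := mul_le_mul_of_nonneg_left (h3.trans h5) (by linarith : (0 : ℝ) ≤ 2 * θ)
    calc 2 * θ * ∑ g : H, w g * (((insert v T ∩ S g).card - 1 : ℕ) : ℝ)
        ≤ 2 * θ * (4 * (k : ℝ) ^ 2 * δ) := h6
      _ = 8 * θ * k ^ 2 * δ := by ring
  have h7 : 0 ≤ ∏ g : H, (1 - θ * w g) ^ (T ∩ S g).card :=
    Finset.prod_nonneg fun g _ => pow_nonneg (by linarith [q_le hG hθ hθ2 g]) _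
  refine le_trans ?_ (mul_le_mul_of_nonneg_right h2 h7)
  have h8 : Real.exp (2 * θ * ∑ g : H, w g * (((insert v T ∩ S g).card - 1 : ℕ) : ℝ)) =
      ∏ g : H, Real.exp (2 * (θ * w g)) ^ ((insert v T ∩ S g).card - 1) := by
    rw [Finset.mul_sum, Real.exp_sum]
    apply Finset.prod_congr rfl
    intro g _
    rw [← Real.exp_nat_mul]
    congr 1
    ring
  rw [h8, ← Finset.prod_mul_distrib]
  apply Finset.prod_le_prod
  · intro g _
    split_ifs
    · linarith [q_le hG hθ hθ2 g]
    · norm_num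
  · intro g _
    have h0 : 0 ≤ 1 - θ * w g := by linarith [q_le hG hθ hθ2 g]
    have hr := one_le_r hG hθ hθ2 g
    have he : 1 ≤ Real.exp (2 * (θ * w g)) := Real.one_le_exp (by linarith [q_nonneg hG hθ hθ2 g])
    by_cases hvg : v ∈ S g
    · have hc : (insert v T ∩ S g).card = (T ∩ S g).card + 1 := by
        rw [Finset.insert_inter_of_mem hvg, Finset.card_insert_of_notMem]
        intro h
        exact hv (Finset.mem_inter.1 h).1
      rw [if_neg (fun h => (mem_mtv.1 h).1 hvg), hc, Nat.add_sub_cancel, mul_comm, ← mul_pow]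
      exact one_le_pow₀ hr
    · have hc : insert v T ∩ S g = T ∩ S g := Finset.insert_inter_of_notMem hvg
      rw [hc]
      rcases Nat.eq_zero_or_pos (T ∩ S g).card with h | h
      · rw [if_neg, h]
        · simp
        · intro h9
          apply (mem_mtv.1 h9).2
          rw [Finset.disjoint_iff_inter_eq_empty, Finset.inter_comm, ← Finset.card_eq_zero]
          exact h
      · obtain ⟨m, hm⟩ := Nat.exists_eq_succ_of_ne_zero h.ne'
        have h9 : g ∈ mtv S v T := by
          rw [mem_mtv]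
          refine ⟨hvg, ?_⟩
          rw [Finset.disjoint_iff_inter_eq_empty, Finset.inter_comm, ← Finset.card_eq_zero]
          exact h.ne'
        rw [if_pos h9, hm, Nat.succ_eq_add_one, Nat.add_sub_cancel, pow_succ, ← mul_assoc, ← mul_pow,
          mul_comm (Real.exp _)]
        exact le_mul_of_one_le_left h0 (one_le_pow₀ hr)

/-- weight of the edges meeting `S e` -/
theorem sum_mts_le (e : H) : ∑ g ∈ mts S (S e), w g ≤ k := by
  have h1 : ∑ g ∈ mts S (S e), w g ≤ ∑ v ∈ S e, ld S w v := by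
    unfold ld
    simp only [Finset.sum_filter]
    rw [Finset.sum_comm]
    rw [← Finset.sum_subset (Finset.subset_univ (mts S (S e)))]
    · apply Finset.sum_le_sum
      intro g hg
      have h2 := mem_mts.1 hg
      rw [Finset.not_disjoint_iff] at h2
      obtain ⟨v, hv, hve⟩ := h2
      have h3 := Finset.single_le_sum (f := fun v => if v ∈ S g then w g else 0)
        (fun u _ => by
          split_ifs
          · exact hG.nn g
          · exact le_refl _) hve
      simpa [hv] using h3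
    · intro g _ hg
      rw [mem_mts, not_not] at hg
      apply Finset.sum_eq_zero
      intro v hv
      rw [if_neg (fun h => Finset.disjoint_left.1 hg h hv)]
  refine h1.trans ?_
  calc ∑ v ∈ S e, ld S w v ≤ ∑ _v ∈ S e, (1 : ℝ) := Finset.sum_le_sum fun v _ => hG.load v
    _ = (S e).card := by simp
    _ ≤ k := by exact_mod_cast hG.card e

end Round

end Pool.Agent.H12.Nib
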