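import Pool.Agent.H12.Nib.Hyp

/-!
One round of the nibble: random variables and expectations.
-/

open Finset

namespace Pool.Agent.H12.Nib

set_option linter.unusedSectionVars false

variable {X H : Type} [Fintype X] [Fintype H] [DecidableEq X] [DecidableEq H]

section Defs

variable (S : H → Finset X) (w : H → ℝ) (θ : ℝ)

/-- `e` survives -/
def sv (t : Finset (H ⊕ X)) (e : H) : Prop := Disjoint t ((mts S (S e)).disjSum (S e))

instance (t : Finset (H ⊕ X)) (e : H) : Decidable (sv S t e) := by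
  unfold sv
  infer_instance

/-- the matching of isolated chosen edges -/
def m1 (t : Finset (H ⊕ X)) : Finset H :=
  Finset.univ.filter fun e => Sum.inl e ∈ t ∧ Disjoint t (((mts S (S e)).erase e).disjSum ∅)

/-- scaled weights -/
noncomputable def w1 (e : H) : ℝ := w e * ((1 - θ)⁻¹) ^ ((S e).card - 1)

/-- new loads -/
noncomputable def L1 (t : Finset (H ⊕ X)) (v : X) : ℝ :=
  ∑ e with v ∈ S e, if sv S t e then w1 S w θ e else 0

/-- blocking set of `e` off `v` -/
def bk (v : X) (e : H) : Finset (H ⊕ X) := (mtv S v ((S e).erase v)).disjSum ((S e).erase v)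

/-- upper bound for the new loads -/
noncomputable def ZZ (v : X) (t : Finset (H ⊕ X)) : ℝ :=
  ∑ e with v ∈ S e, if Disjoint t (bk S v e) then w1 S w θ e else 0

end Defs

section Round

variable {S : H → Finset X} {w : H → ℝ} {θ : ℝ}
variable {k : ℕ} {δ : ℝ} (hG : Good k δ S w) (hθ : 0 < θ) (hθ2 : θ ≤ 1 / 2)
  (hθk : ((1 - θ)⁻¹) ^ (k - 1) ≤ 2)
include hG hθ hθ2

theorem w1_nonneg (e : H) : 0 ≤ w1 S w θ e :=
  mul_nonneg (hG.nn e) (pow_nonneg (inv_nonneg.2 (by linarith)) _)

theorem w_le_w1 (e : H) : w e ≤ w1 S w θ e := by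
  unfold w1
  apply le_mul_of_one_le_right (hG.nn e)
  apply one_le_pow₀
  rw [one_le_inv₀ (by linarith)]
  linarith

include hθk in
theorem w1_le (e : H) : w1 S w θ e ≤ 2 * w e := by
  unfold w1
  rw [mul_comm]
  apply mul_le_mul_of_nonneg_right _ (hG.nn e)
  refine le_trans ?_ hθk
  apply pow_le_pow_right₀
  · rw [one_le_inv₀ (by linarith)]
    linarith
  · exact Nat.sub_le_sub_right (hG.card e) 1

theorem w1_mul_pow (e : H) : w1 S w θ e * (1 - θ) ^ ((S e).card - 1) = w e := by
  unfold w1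
  rw [mul_assoc, ← mul_pow, inv_mul_cancel₀ (by linarith), one_pow, mul_one]

theorem w1_mul_pow' (e : H) : w1 S w θ e * (1 - θ) ^ (S e).card = w e * (1 - θ) := by
  have h := Finset.card_pos.2 (hG.ne e)
  obtain ⟨m, hm⟩ := Nat.exists_eq_succ_of_ne_zero h.ne'
  have h2 := w1_mul_pow hG hθ hθ2 e
  rw [hm, Nat.succ_eq_add_one, Nat.add_sub_cancel] at h2
  rw [hm, Nat.succ_eq_add_one, pow_succ, ← mul_assoc, h2]

theorem L1_nonneg (t : Finset (H ⊕ X)) (v : X) : 0 ≤ L1 S w θ t v := by
  apply Finset.sum_nonneg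
  intro e _
  split_ifs
  · exact w1_nonneg hG hθ hθ2 e
  · exact le_refl _

theorem L1_le_ZZ (t : Finset (H ⊕ X)) (v : X) : L1 S w θ t v ≤ ZZ S w θ v t := by
  apply Finset.sum_le_sum
  intro e _
  by_cases h : sv S t e
  · rw [if_pos h, if_pos]
    refine Finset.disjoint_of_subset_right ?_ h
    apply Finset.disjSum_mono
    · intro g hg
      rw [mem_mtv] at hg
      rw [mem_mts]
      intro hd
      exact hg.2 (Finset.disjoint_of_subset_right (Finset.erase_subset _ _) hd)
    · exact Finset.erase_subset _ _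
  · rw [if_neg h]
    split_ifs
    · exact w1_nonneg hG hθ hθ2 e
    · exact le_refl _

theorem EE_ind (v : X) (e : H) : EE (pp S w θ) (fun t => if Disjoint t (bk S v e) then w1 S w θ e else 0) =
    w1 S w θ e * ∏ i ∈ bk S v e, (1 - pp S w θ i) := by
  classical
  rw [← EE_avoid]
  unfold EE
  rw [← ED_const_mul]
  congr 1
  funext t
  split_ifs <;> simp

theorem EE_ZZ_ge (v : X) : ld S w v ≤ EE (pp S w θ) (ZZ S w θ v) := by
  unfold ZZ EE
  rw [ED_sum]
  unfold ld
  apply Finset.sum_le_sum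
  intro e he
  have hve := (Finset.mem_filter.1 he).2
  have h1 := EE_ind hG hθ hθ2 v e
  unfold EE at h1
  rw [h1]
  have h2 : (1 - θ) ^ ((S e).card - 1) ≤ ∏ i ∈ bk S v e, (1 - pp S w θ i) := by
    have h3 := blk_ge hG hθ hθ2 (G := mtv S v ((S e).erase v)) (T := (S e).erase v) (by
      intro g hg
      rw [mem_mtv] at hg
      rw [mem_mts]
      exact hg.2)
    rw [Finset.card_erase_of_mem hve] at h3
    exact h3
  have h4 := mul_le_mul_of_nonneg_left h2 (w1_nonneg hG hθ hθ2 e)
  rw [w1_mul_pow hG hθ hθ2] at h4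
  exact h4

theorem bk_union (v : X) (e f : H) : bk S v e ∪ bk S v f =
    (mtv S v ((S e).erase v ∪ (S f).erase v)).disjSum ((S e).erase v ∪ (S f).erase v) := by
  ext i
  unfold bk
  rcases i with g | u
  · simp only [Finset.mem_union, Finset.inl_mem_disjSum, mem_mtv, Finset.disjoint_union_right]
    tauto
  · simp only [Finset.mem_union, Finset.inr_mem_disjSum]

include hθk in
theorem EE_pair (hδ : 0 ≤ δ) {v : X} {e f : H} (he : v ∈ S e) (hf : v ∈ S f) :
    EE (pp S w θ) (fun t => (if Disjoint t (bk S v e) then w1 S w θ e else 0) *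
      (if Disjoint t (bk S v f) then w1 S w θ f else 0)) ≤
    w e * w f * Real.exp (8 * θ * k ^ 2 * δ) +
      4 * (w e * w f) * (if Disjoint ((S e).erase v) ((S f).erase v) then 0 else 1) := by
  classical
  have h1 : (fun t : Finset (H ⊕ X) => (if Disjoint t (bk S v e) then w1 S w θ e else 0) *
      (if Disjoint t (bk S v f) then w1 S w θ f else 0)) =
      fun t => (w1 S w θ e * w1 S w θ f) * (if Disjoint t (bk S v e ∪ bk S v f) then 1 else 0) := by
    funext t
    by_cases h1 : Disjoint t (bk S v e) <;> by_cases h2 : Disjoint t (bk S v f) <;>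
      simp [h1, h2, Finset.disjoint_union_right]
  rw [h1]
  unfold EE
  rw [ED_const_mul]
  have h2 := EE_avoid (pp S w θ) (bk S v e ∪ bk S v f)
  unfold EE at h2
  rw [h2, bk_union hG hθ hθ2]
  set T := (S e).erase v ∪ (S f).erase v with hT
  have hvT : v ∉ T := by simp [hT]
  have hcard : (insert v T).card ≤ 2 * k := by
    have h3 : insert v T = S e ∪ S f := by
      rw [hT, ← Finset.erase_union_distrib, Finset.insert_erase]
      exact Finset.mem_union_left _ he
    rw [h3]
    have h4 := Finset.card_union_le (S e) (S f)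
    have h5 := hG.card e
    have h6 := hG.card f
    omega
  have hb := blk_le hG hθ hθ2 hδ hvT hcard
  have hw : 0 ≤ w1 S w θ e * w1 S w θ f :=
    mul_nonneg (w1_nonneg hG hθ hθ2 e) (w1_nonneg hG hθ hθ2 f)
  have hww : 0 ≤ w e * w f := mul_nonneg (hG.nn e) (hG.nn f)
  by_cases hd : Disjoint ((S e).erase v) ((S f).erase v)
  · rw [if_pos hd, mul_zero, add_zero]
    have h3 := mul_le_mul_of_nonneg_left hb hw
    refine h3.trans (le_of_eq ?_)
    rw [hT, Finset.card_union_of_disjoint hd, Finset.card_erase_of_mem he,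
      Finset.card_erase_of_mem hf, pow_add]
    rw [← w1_mul_pow hG hθ hθ2 e, ← w1_mul_pow hG hθ hθ2 f]
    have e1 : w1 S w θ e * (1 - θ) ^ ((S e).card - 1) = w e := w1_mul_pow hG hθ hθ2 e
    ring
  · rw [if_neg hd, mul_one]
    have h3 : ∏ i ∈ (mtv S v T).disjSum T, (1 - pp S w θ i) ≤ 1 := by
      apply Finset.prod_le_one
      · intro i _
        exact sub_nonneg.2 (pp_le_one hG hθ hθ2 i)
      · intro i _
        exact sub_le_self 1 (pp_nonneg hG hθ hθ2 i)
    have h4 := mul_le_mul_of_nonneg_left h3 hw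
    have h5 := w1_le hG hθ hθ2 hθk e
    have h6 := w1_le hG hθ hθ2 hθk f
    have h7 : w1 S w θ e * w1 S w θ f ≤ 2 * w e * (2 * w f) :=
      mul_le_mul h5 h6 (w1_nonneg hG hθ hθ2 f) (mul_nonneg (by norm_num) (hG.nn e))
    have h8 : 0 ≤ w e * w f * Real.exp (8 * θ * k ^ 2 * δ) := mul_nonneg hww (Real.exp_pos _).le
    linarith

theorem sum_pair (hδ : 0 ≤ δ) (v : X) (e : H) :
    ∑ f with v ∈ S f, w f * (if Disjoint ((S e).erase v) ((S f).erase v) then (0 : ℝ) else 1) ≤
      k * δ := by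
  have h1 : ∑ f with v ∈ S f, w f * (if Disjoint ((S e).erase v) ((S f).erase v) then (0 : ℝ) else 1) ≤
      ∑ u ∈ (S e).erase v, cd S w u v := by
    unfold cd
    simp only [Finset.sum_filter]
    rw [Finset.sum_comm]
    apply Finset.sum_le_sum
    intro f _
    by_cases hf : v ∈ S f
    · rw [if_pos hf]
      by_cases hd : Disjoint ((S e).erase v) ((S f).erase v)
      · rw [if_pos hd, mul_zero]
        apply Finset.sum_nonneg
        intro u _
        split_ifs
        · exact hG.nn f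
        · exact le_refl _
      · rw [if_neg hd, mul_one]
        rw [Finset.not_disjoint_iff] at hd
        obtain ⟨u, hu, huf⟩ := hd
        have h3 := Finset.single_le_sum (f := fun u => if u ∈ S f ∧ v ∈ S f then w f else 0)
          (fun u _ => by
            split_ifs
            · exact hG.nn f
            · exact le_refl _) hu
        have h4 : (if u ∈ S f ∧ v ∈ S f then w f else 0) = w f :=
          if_pos ⟨Finset.mem_of_mem_erase huf, hf⟩
        linarith
    · rw [if_neg hf]
      apply Finset.sum_nonneg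
      intro u _
      split_ifs
      · exact hG.nn f
      · exact le_refl _
  refine h1.trans ?_
  have h2 : ∑ u ∈ (S e).erase v, cd S w u v ≤ ∑ _u ∈ (S e).erase v, δ :=
    Finset.sum_le_sum fun u hu => hG.codeg u v (Finset.ne_of_mem_erase hu)
  refine h2.trans ?_
  rw [Finset.sum_const, nsmul_eq_mul]
  apply mul_le_mul_of_nonneg_right _ hδ
  have h3 := Finset.card_erase_le (s := S e) (a := v)
  have h4 := hG.card e
  exact_mod_cast h3.trans h4

include hθk in
theorem EE_ZZ_sq (hδ : 0 ≤ δ) (v : X) :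
    EE (pp S w θ) (fun t => ZZ S w θ v t * ZZ S w θ v t) ≤
      ld S w v * ld S w v * Real.exp (8 * θ * k ^ 2 * δ) + 4 * (k * δ) * ld S w v := by
  have h1 : EE (pp S w θ) (fun t => ZZ S w θ v t * ZZ S w θ v t) =
      ∑ e with v ∈ S e, ∑ f with v ∈ S f, EE (pp S w θ)
        (fun t => (if Disjoint t (bk S v e) then w1 S w θ e else 0) *
          (if Disjoint t (bk S v f) then w1 S w θ f else 0)) := by
    unfold EE
    rw [show (fun t => ZZ S w θ v t * ZZ S w θ v t) = fun t => ∑ e with v ∈ S e, ∑ f with v ∈ S f,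
        (if Disjoint t (bk S v e) then w1 S w θ e else 0) *
          (if Disjoint t (bk S v f) then w1 S w θ f else 0) from by
      funext t
      unfold ZZ
      rw [Finset.sum_mul_sum]]
    rw [ED_sum]
    apply Finset.sum_congr rfl
    intro e _
    rw [ED_sum]
  rw [h1]
  have h2 : ∑ e with v ∈ S e, ∑ f with v ∈ S f, EE (pp S w θ)
        (fun t => (if Disjoint t (bk S v e) then w1 S w θ e else 0) *
          (if Disjoint t (bk S v f) then w1 S w θ f else 0)) ≤
      ∑ e with v ∈ S e, ∑ f with v ∈ S f, (w e * w f * Real.exp (8 * θ * k ^ 2 * δ) +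
      4 * (w e * w f) * (if Disjoint ((S e).erase v) ((S f).erase v) then 0 else 1)) := by
    apply Finset.sum_le_sum
    intro e he
    apply Finset.sum_le_sum
    intro f hf
    exact EE_pair hG hθ hθ2 hθk hδ (Finset.mem_filter.1 he).2 (Finset.mem_filter.1 hf).2
  refine h2.trans ?_
  have h3 : ∀ e ∈ Finset.univ.filter (fun e => v ∈ S e), ∑ f with v ∈ S f,
      (w e * w f * Real.exp (8 * θ * k ^ 2 * δ) +
      4 * (w e * w f) * (if Disjoint ((S e).erase v) ((S f).erase v) then 0 else 1)) ≤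
      w e * (ld S w v * Real.exp (8 * θ * k ^ 2 * δ) + 4 * (k * δ)) := by
    intro e _
    rw [Finset.sum_add_distrib]
    have h4 : ∑ f with v ∈ S f, w e * w f * Real.exp (8 * θ * k ^ 2 * δ) =
        w e * (ld S w v * Real.exp (8 * θ * k ^ 2 * δ)) := by
      unfold ld
      rw [Finset.sum_mul, Finset.mul_sum]
      apply Finset.sum_congr rfl
      intro f _
      ring
    have h5 : ∑ f with v ∈ S f,
        4 * (w e * w f) * (if Disjoint ((S e).erase v) ((S f).erase v) then (0 : ℝ) else 1) =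
        w e * (4 * ∑ f with v ∈ S f,
          w f * (if Disjoint ((S e).erase v) ((S f).erase v) then (0 : ℝ) else 1)) := by
      rw [Finset.mul_sum, Finset.mul_sum]
      apply Finset.sum_congr rfl
      intro f _
      ring
    rw [h4, h5, ← mul_add]
    apply mul_le_mul_of_nonneg_left _ (hG.nn e)
    have h6 := sum_pair hG hθ hθ2 hδ v e
    linarith
  refine (Finset.sum_le_sum h3).trans (le_of_eq ?_)
  rw [← Finset.sum_mul]
  unfold ld
  ring

include hθk in
theorem EE_over (hδ : 0 ≤ δ) {γ : ℝ} (hγ : 0 < γ) (v : X) :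
    EE (pp S w θ) (fun t => max 0 (L1 S w θ t v - 1 - γ)) ≤
      (Real.exp (8 * θ * k ^ 2 * δ) - 1 + 4 * (k * δ)) / (4 * γ) * ld S w v := by
  have h0 := pp_nonneg hG hθ hθ2
  have h1 := pp_le_one hG hθ hθ2
  set m := ld S w v with hm
  have hm0 : 0 ≤ m := ld_nonneg hG v
  have hm1 : m ≤ 1 := hG.load v
  have hpt : ∀ t, max 0 (L1 S w θ t v - 1 - γ) ≤
      (4 * γ)⁻¹ * (ZZ S w θ v t * ZZ S w θ v t + (-(2 * m) * ZZ S w θ v t + m * m)) := by
    intro t
    have hz := L1_le_ZZ hG hθ hθ2 t v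
    set z := ZZ S w θ v t
    have hsq : z * z + (-(2 * m) * z + m * m) = (z - m) ^ 2 := by ring
    rw [hsq]
    apply max_le
    · positivity
    · rcases le_or_gt z (1 + γ) with hle | hgt
      · have : L1 S w θ t v - 1 - γ ≤ 0 := by linarith
        exact this.trans (by positivity)
      · rw [inv_mul_eq_div, le_div_iff₀ (by positivity)]
        have h5 : L1 S w θ t v - 1 - γ ≤ z - 1 - γ := by linarith
        have h6 : (z - 1 - γ) * (4 * γ) ≤ (z - m) ^ 2 := by
          have h7 : 0 ≤ (z - 1 - γ) := by linarith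
          nlinarith [sq_nonneg (z - 1 - γ - γ), mul_nonneg h7 (sub_nonneg.2 hm1),
            mul_nonneg hγ.le (sub_nonneg.2 hm1), sq_nonneg (1 - m)]
        have h8 := mul_le_mul_of_nonneg_right h5 (by positivity : (0 : ℝ) ≤ 4 * γ)
        linarith
  have h2 : EE (pp S w θ) (fun t => max 0 (L1 S w θ t v - 1 - γ)) ≤
      (4 * γ)⁻¹ * (EE (pp S w θ) (fun t => ZZ S w θ v t * ZZ S w θ v t) +
        (-(2 * m) * EE (pp S w θ) (ZZ S w θ v) + m * m)) := by
    have h3 : EE (pp S w θ) (fun t => max 0 (L1 S w θ t v - 1 - γ)) ≤ EE (pp S w θ) (fun t =>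
      (4 * γ)⁻¹ * (ZZ S w θ v t * ZZ S w θ v t + (-(2 * m) * ZZ S w θ v t + m * m))) :=
      ED_mono h0 h1 _ hpt _
    refine h3.trans (le_of_eq ?_)
    unfold EE
    rw [ED_const_mul, ED_add, ED_add, ED_const_mul, ED_const]
  refine h2.trans ?_
  have h4 := EE_ZZ_sq hG hθ hθ2 hθk hδ v
  have h5 := EE_ZZ_ge hG hθ hθ2 v
  rw [← hm] at h4 h5
  rw [div_mul_eq_mul_div, inv_mul_eq_div]
  apply div_le_div_of_nonneg_right _ (by positivity)
  have h6 : m * (m * Real.exp (8 * θ * k ^ 2 * δ)) ≤ m * Real.exp (8 * θ * k ^ 2 * δ) -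
      m + m * m := by
    have h7 : 1 ≤ Real.exp (8 * θ * k ^ 2 * δ) := Real.one_le_exp (by positivity)
    nlinarith [mul_nonneg hm0 (mul_nonneg (sub_nonneg.2 hm1) (sub_nonneg.2 h7))]
  nlinarith [mul_le_mul_of_nonneg_left h5 hm0]

end Round

end Pool.Agent.H12.Nib
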