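import Pool.Agent.H12.Nib.Step

/-!
The strong nibble theorem.
-/

open Finset

namespace Pool.Agent.H12.Nib

set_option linter.unusedSectionVars false

/-- the claim for parameters `a, β, δ, A` -/
def NC (k : ℕ) (Φ a β δ A : ℝ) : Prop :=
  ∀ (X H : Type) [Fintype X] [DecidableEq X] [Fintype H] [DecidableEq H]
    (S : H → Finset X) (w : H → ℝ), Good k δ S w →
  ∀ (Λ : Type) [Fintype Λ] [Nonempty Λ] (f : Λ → H → ℝ), (∀ i e, 0 ≤ f i e ∧ f i e ≤ Φ) →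
  ∃ M : Finset H, IsM S M ∧ (∀ e ∈ M, w e ≠ 0) ∧
    ∀ i, a * (∑ e, w e * f i e) - β * (∑ e, w e)
      - A * Real.sqrt ((∑ e, w e) + 1) * (1 + Real.log (Fintype.card Λ)) ≤ ∑ e ∈ M, f i e

theorem log_card_nonneg (Λ : Type) [Fintype Λ] [Nonempty Λ] : 0 ≤ Real.log (Fintype.card Λ) := by
  apply Real.log_nonneg
  exact_mod_cast Nat.one_le_iff_ne_zero.2 Fintype.card_ne_zero

theorem NC_zero (k : ℕ) (Φ β δ A : ℝ) (hβ : 0 ≤ β) (hA : 0 ≤ A) : NC k Φ 0 β δ A := by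
  intro X H _ _ _ _ S w hG Λ _ _ f hf
  refine ⟨∅, ?_, ?_, ?_⟩
  · intro e he
    simp at he
  · intro e he
    simp at he
  · intro i
    rw [Finset.sum_empty]
    have h1 : 0 ≤ ∑ e, w e := Finset.sum_nonneg fun e _ => hG.nn e
    have h2 := log_card_nonneg Λ
    have h3 : 0 ≤ β * ∑ e, w e := mul_nonneg hβ h1
    have h4 : 0 ≤ A * Real.sqrt ((∑ e, w e) + 1) * (1 + Real.log (Fintype.card Λ)) := by
      positivity
    linarith

theorem Good.mono {X H : Type} [Fintype X] [Fintype H] [DecidableEq X] {k : ℕ} {δ δ' : ℝ}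
    {S : H → Finset X} {w : H → ℝ} (h : Good k δ S w) (hd : δ ≤ δ') : Good k δ' S w :=
  ⟨h.ne, h.card, h.nn, h.load, fun u v huv => (h.codeg u v huv).trans hd⟩

theorem exp_le {x : ℝ} (h0 : 0 ≤ x) (h1 : x ≤ 1) : Real.exp x - 1 ≤ 2 * x := by
  have h := Real.abs_exp_sub_one_le (by rw [abs_of_nonneg h0]; exact h1 : |x| ≤ 1)
  rw [abs_of_nonneg h0] at h
  exact (le_abs_self _).trans h

theorem inv_gap {γ : ℝ} (h : 0 < γ) : 1 - (1 + γ)⁻¹ ≤ γ := by
  have h1 : (1 + γ)⁻¹ * (1 + γ) = 1 := inv_mul_cancel₀ (by linarith)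
  have h2 : 0 < (1 + γ)⁻¹ := by positivity
  have h3 : (1 + γ)⁻¹ ≤ 1 := inv_le_one_of_one_le₀ (by linarith)
  have h4 : (1 + γ)⁻¹ * γ ≤ γ := mul_le_of_le_one_left h.le h3
  linarith

theorem loss_one {γ a θ F W β Φ : ℝ} (hγ : 0 < γ) (ha : 0 ≤ a) (ha1 : a ≤ 1) (hθ : 0 < θ)
    (hθ2 : θ ≤ 1 / 2) (hF0 : 0 ≤ F) (hFW : F ≤ Φ * W) (hg : γ * Φ = β / 4) :
    a * ((1 - θ) * F) - β / 4 * W ≤ a * ((1 + γ)⁻¹ * ((1 - θ) * F)) := by
  have e1 := inv_gap hγ
  have e0 : (1 + γ)⁻¹ ≤ 1 := inv_le_one_of_one_le₀ (by linarith)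
  have e5 : 0 ≤ (1 - θ) * F := mul_nonneg (by linarith) hF0
  have e2 : 0 ≤ a * ((1 - θ) * F) := mul_nonneg ha e5
  have e3 : a * ((1 - θ) * F) ≤ F := by
    have e4 : (1 - θ) * F ≤ F := mul_le_of_le_one_left hF0 (by linarith)
    exact (mul_le_of_le_one_left e5 ha1).trans e4
  have e4 : γ * F ≤ β / 4 * W := by
    have e6 : γ * F ≤ γ * (Φ * W) := mul_le_mul_of_nonneg_left hFW hγ.le
    rw [← mul_assoc, hg] at e6
    exact e6
  have e6 : (1 - (1 + γ)⁻¹) * (a * ((1 - θ) * F)) ≤ γ * F :=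
    mul_le_mul e1 e3 e2 hγ.le
  have e7 : a * ((1 + γ)⁻¹ * ((1 - θ) * F)) =
      a * ((1 - θ) * F) - (1 - (1 + γ)⁻¹) * (a * ((1 - θ) * F)) := by ring
  rw [e7]
  linarith

theorem NC_step (k : ℕ) (hk : 1 ≤ k) {Φ θ a β : ℝ} (hΦ : 0 < Φ) (hθ : 0 < θ) (hθ2 : θ ≤ 1 / 2)
    (hθk : ((1 - θ)⁻¹) ^ (k - 1) ≤ 2) (hkθ : (k : ℝ) * θ ≤ 1) (ha : 0 ≤ a) (ha1 : a ≤ 1)
    (hβ : 0 < β) (ih : ∃ δ > 0, ∃ A ≥ 0, NC k Φ a (β / 4) δ A) :
    ∃ δ > 0, ∃ A ≥ 0, NC k Φ (θ * (1 - k * θ) + (1 - θ) * a) β δ A := by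
  obtain ⟨δ', hδ', A', hA', hN⟩ := ih
  have hk1 : (1 : ℝ) ≤ k := by exact_mod_cast hk
  have hk0 : (0 : ℝ) < k := by linarith
  set γ := β / (4 * Φ) with hγd
  have hγ : 0 < γ := by positivity
  set D := 5 * (k : ℝ) ^ 2 * Φ with hD
  have hD0 : 0 < D := by positivity
  set δ := min (δ' / 2) (min (γ ^ 2 / (3 * (k : ℝ) ^ 3)) (1 / (4 * (k : ℝ) ^ 2))) with hδd
  have hδ0 : 0 < δ := by
    rw [hδd]
    refine lt_min (by linarith) (lt_min (by positivity) (by positivity))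
  have hδ1 : 2 * δ ≤ δ' := by
    have : δ ≤ δ' / 2 := min_le_left _ _
    linarith
  have hδ2 : 3 * (k : ℝ) ^ 3 * δ ≤ γ ^ 2 := by
    have h1 : δ ≤ γ ^ 2 / (3 * (k : ℝ) ^ 3) := (min_le_right _ _).trans (min_le_left _ _)
    rw [le_div_iff₀ (by positivity)] at h1
    linarith
  have hδ3 : 4 * (k : ℝ) ^ 2 * δ ≤ 1 := by
    have h1 : δ ≤ 1 / (4 * (k : ℝ) ^ 2) := (min_le_right _ _).trans (min_le_right _ _)
    rw [le_div_iff₀ (by positivity)] at h1
    linarith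
  have hE : Φ * ((Real.exp (8 * θ * k ^ 2 * δ) - 1 + 4 * (k * δ)) / (4 * γ) * k) ≤ β / 4 := by
    have h1 : 8 * θ * k ^ 2 * δ ≤ 4 * (k : ℝ) ^ 2 * δ := by
      apply mul_le_mul_of_nonneg_right _ hδ0.le
      apply mul_le_mul_of_nonneg_right _ (by positivity)
      linarith
    have h2 := exp_le (x := 8 * θ * k ^ 2 * δ) (by positivity) (h1.trans hδ3)
    have h3 : Real.exp (8 * θ * k ^ 2 * δ) - 1 + 4 * (k * δ) ≤ 12 * (k : ℝ) ^ 2 * δ := by
      have h4 : (k : ℝ) * δ ≤ (k : ℝ) ^ 2 * δ := by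
        apply mul_le_mul_of_nonneg_right _ hδ0.le
        nlinarith
      nlinarith
    have h4 : (Real.exp (8 * θ * k ^ 2 * δ) - 1 + 4 * (k * δ)) / (4 * γ) * k ≤ γ := by
      rw [div_mul_eq_mul_div, div_le_iff₀ (by positivity)]
      have h5 := mul_le_mul_of_nonneg_right h3 hk0.le
      have h6 : 12 * (k : ℝ) ^ 2 * δ * k ≤ γ * (4 * γ) := by nlinarith
      linarith
    have h5 := mul_le_mul_of_nonneg_left h4 hΦ.le
    have h6 : Φ * γ = β / 4 := by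
      rw [hγd]
      field_simp
    linarith
  refine ⟨δ, hδ0, 2 * k * D + 2 * A', by positivity, ?_⟩
  intro X H _ _ _ _ S w hG Λ _ _ f hf
  classical
  set g : Λ → H → ℝ := fun i e => if w e = 0 then 0 else f i e with hg
  have hgf : ∀ i e, 0 ≤ g i e ∧ g i e ≤ Φ := by
    intro i e
    simp only [hg]
    split_ifs
    · exact ⟨le_refl _, hΦ.le⟩
    · exact hf i e
  have hwg : ∀ i, ∑ e, w e * g i e = ∑ e, w e * f i e := by
    intro i
    apply Finset.sum_congr rfl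
    intro e _
    simp only [hg]
    split_ifs with h
    · rw [h, zero_mul, zero_mul]
    · rfl
  obtain ⟨M, w', hM, hG', hw', hdis, hb⟩ := bite hG hθ hθ2 hθk hk hδ0.le hγ ha ha1 hΦ Λ g hgf
  obtain ⟨M', hM', hne, hb'⟩ := hN X H S w' (hG'.mono hδ1) Λ g hgf
  have hdisj : Disjoint M M' := by
    rw [Finset.disjoint_left]
    intro e he he'
    have h1 := hdis e (hne e he') e he
    obtain ⟨v, hv⟩ := hG.ne e
    exact Finset.disjoint_left.1 h1 hv hv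
  refine ⟨(M ∪ M').filter fun e => w e ≠ 0, ?_, ?_, ?_⟩
  · intro e he e' he' hne'
    have h1 := (Finset.mem_filter.1 he).1
    have h2 := (Finset.mem_filter.1 he').1
    rw [Finset.mem_union] at h1 h2
    rcases h1 with h1 | h1 <;> rcases h2 with h2 | h2
    · exact hM e h1 e' h2 hne'
    · exact hdis e' (hne e' h2) e h1
    · exact (hdis e (hne e h1) e' h2).symm
    · exact hM' e h1 e' h2 hne'
  · intro e he
    exact (Finset.mem_filter.1 he).2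
  · intro i
    have h1 : ∑ e ∈ (M ∪ M').filter (fun e => w e ≠ 0), f i e =
        ∑ e ∈ M, g i e + ∑ e ∈ M', g i e := by
      rw [← Finset.sum_union hdisj, Finset.sum_filter]
      apply Finset.sum_congr rfl
      intro e _
      simp only [hg]
      by_cases h : w e = 0
      · rw [if_neg (by simpa using h), if_pos h]
      · rw [if_pos h, if_neg h]
    rw [h1]
    have h2 := hb i
    have h3 := hb' i
    rw [hwg] at h2
    set F := ∑ e, w e * f i e with hF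
    set W := ∑ e, w e with hWd
    set W' := ∑ e, w' e with hWd'
    set F' := ∑ e, w' e * g i e with hF'
    set Lg := Real.log (Fintype.card Λ) with hLg
    have hL : 0 ≤ Lg := log_card_nonneg Λ
    have hW : 0 ≤ W := Finset.sum_nonneg fun e _ => hG.nn e
    have hW' : 0 ≤ W' := Finset.sum_nonneg fun e _ => hG'.nn e
    have hWW : W' ≤ 2 * W := by
      rw [hWd', hWd, Finset.mul_sum]
      exact Finset.sum_le_sum fun e _ => hw' e
    have hF0 : 0 ≤ F := Finset.sum_nonneg fun e _ => mul_nonneg (hG.nn e) (hf i e).1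
    have hFW : F ≤ Φ * W := by
      rw [hF, hWd, Finset.mul_sum]
      apply Finset.sum_le_sum
      intro e _
      rw [mul_comm Φ]
      exact mul_le_mul_of_nonneg_left (hf i e).2 (hG.nn e)
    set sq := Real.sqrt (W + 1) with hsq
    have hsq0 : 0 ≤ sq := Real.sqrt_nonneg _
    have hsq' : Real.sqrt (W' + 1) ≤ 2 * sq := by
      rw [Real.sqrt_le_left (by positivity), mul_pow, hsq, Real.sq_sqrt (by linarith)]
      linarith
    -- loss 1
    have l1 : a * ((1 - θ) * F) - β / 4 * W ≤ a * ((1 + γ)⁻¹ * ((1 - θ) * F)) := by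
      apply loss_one hγ ha ha1 hθ hθ2 hF0 hFW
      rw [hγd]
      field_simp
    -- loss 2
    have l2 : a * (Φ * ((Real.exp (8 * θ * k ^ 2 * δ) - 1 + 4 * (k * δ)) / (4 * γ) * (k * W))) ≤
        β / 4 * W := by
      have e1 := mul_le_mul_of_nonneg_right hE hW
      have e2 : 0 ≤ Φ * ((Real.exp (8 * θ * k ^ 2 * δ) - 1 + 4 * (k * δ)) / (4 * γ) * (k * W)) := by
        have e3 : 1 ≤ Real.exp (8 * θ * k ^ 2 * δ) := Real.one_le_exp (by positivity)
        have e4 : 0 ≤ Real.exp (8 * θ * k ^ 2 * δ) - 1 + 4 * (k * δ) := by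
          have : 0 ≤ (k : ℝ) * δ := by positivity
          linarith
        positivity
      have e3 : Φ * ((Real.exp (8 * θ * k ^ 2 * δ) - 1 + 4 * (k * δ)) / (4 * γ) * (k * W)) =
          Φ * ((Real.exp (8 * θ * k ^ 2 * δ) - 1 + 4 * (k * δ)) / (4 * γ) * k) * W := by ring
      rw [← e3] at e1
      exact (mul_le_of_le_one_left e2 ha1).trans e1
    -- loss 3
    have l3 : (2 * k + Lg) * (5 * (k : ℝ) ^ 2 * Φ * sq) ≤ 2 * k * D * sq * (1 + Lg) := by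
      rw [← hD]
      have e0 : 1 * Lg ≤ 2 * k * Lg := mul_le_mul_of_nonneg_right (by linarith) hL
      have e1 : 2 * k + Lg ≤ 2 * k * (1 + Lg) := by linarith
      have e2 := mul_le_mul_of_nonneg_right e1 (mul_nonneg hD0.le hsq0)
      calc (2 * k + Lg) * (D * sq) ≤ 2 * k * (1 + Lg) * (D * sq) := e2
        _ = _ := by ring
    -- loss 4
    have l4 : A' * Real.sqrt (W' + 1) * (1 + Lg) ≤ 2 * A' * sq * (1 + Lg) := by
      apply mul_le_mul_of_nonneg_right _ (by linarith)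
      calc A' * Real.sqrt (W' + 1) ≤ A' * (2 * sq) := mul_le_mul_of_nonneg_left hsq' hA'
        _ = _ := by ring
    have l5 : β / 4 * W' ≤ β / 2 * W := by
      have e0 := mul_le_mul_of_nonneg_left hWW (by linarith : 0 ≤ β / 4)
      linarith
    have key : (θ * (1 - k * θ) + (1 - θ) * a) * F - β * W - (2 * k * D + 2 * A') * sq * (1 + Lg) =
        θ * (1 - k * θ) * F + (a * ((1 - θ) * F) - β / 4 * W) - β / 4 * W - β / 2 * W -
          2 * k * D * sq * (1 + Lg) - 2 * A' * sq * (1 + Lg) := by ring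
    rw [key]
    have h4 : a * ((1 + γ)⁻¹ * ((1 - θ) * F) -
        Φ * ((Real.exp (8 * θ * k ^ 2 * δ) - 1 + 4 * (k * δ)) / (4 * γ) * (k * W))) =
        a * ((1 + γ)⁻¹ * ((1 - θ) * F)) -
        a * (Φ * ((Real.exp (8 * θ * k ^ 2 * δ) - 1 + 4 * (k * δ)) / (4 * γ) * (k * W))) := by ring
    rw [h4] at h2
    linarith

/-- the sequence of densities -/
noncomputable def aa (k : ℕ) (θ : ℝ) (t : ℕ) : ℝ := (1 - k * θ) * (1 - (1 - θ) ^ t)

theorem NC_all (k : ℕ) (hk : 1 ≤ k) {Φ θ : ℝ} (hΦ : 0 < Φ) (hθ : 0 < θ) (hθ2 : θ ≤ 1 / 2)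
    (hθk : ((1 - θ)⁻¹) ^ (k - 1) ≤ 2) (hkθ : (k : ℝ) * θ ≤ 1) (t : ℕ) :
    ∀ β > 0, ∃ δ > 0, ∃ A ≥ 0, NC k Φ (aa k θ t) β δ A := by
  induction t with
  | zero =>
    intro β hβ
    refine ⟨1, one_pos, 0, le_refl _, ?_⟩
    have h : aa k θ 0 = 0 := by simp [aa]
    rw [h]
    exact NC_zero k Φ β 1 0 hβ.le (le_refl _)
  | succ t ih =>
    intro β hβ
    have h1 : 0 ≤ (1 - θ) ^ t := pow_nonneg (by linarith) _
    have h2 : (1 - θ) ^ t ≤ 1 := pow_le_one₀ (by linarith) (by linarith)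
    have h3 : 0 ≤ 1 - k * θ := by linarith
    have h4 : 1 - k * θ ≤ 1 := by
      have : 0 ≤ (k : ℝ) * θ := by positivity
      linarith
    have ha0 : 0 ≤ aa k θ t := mul_nonneg h3 (by linarith)
    have ha1 : aa k θ t ≤ 1 := mul_le_one₀ h4 (by linarith) (by linarith)
    have h5 := NC_step k hk hΦ hθ hθ2 hθk hkθ ha0 ha1 hβ (ih (β / 4) (by linarith))
    have h6 : θ * (1 - k * θ) + (1 - θ) * aa k θ t = aa k θ (t + 1) := by
      unfold aa
      ring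
    rw [h6] at h5
    exact h5

theorem strong (k : ℕ) (hk : 1 ≤ k) (Φ ε : ℝ) (hΦ : 0 < Φ) (hε : 0 < ε) :
    ∃ δ > 0, ∃ A ≥ 0, NC k Φ (1 - ε) ε δ A := by
  have hk1 : (1 : ℝ) ≤ k := by exact_mod_cast hk
  have hk0 : (0 : ℝ) < k := by linarith
  set θ := min (1 / (2 * (k : ℝ))) (ε / (4 * k)) with hθd
  have hθ : 0 < θ := lt_min (by positivity) (by positivity)
  have hθa : 2 * k * θ ≤ 1 := by
    have h1 : θ ≤ 1 / (2 * (k : ℝ)) := min_le_left _ _
    rw [le_div_iff₀ (by positivity)] at h1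
    linarith
  have hθb : 4 * k * θ ≤ ε := by
    have h1 : θ ≤ ε / (4 * k) := min_le_right _ _
    rw [le_div_iff₀ (by positivity)] at h1
    linarith
  have hθ2 : θ ≤ 1 / 2 := by nlinarith
  have hkθ : (k : ℝ) * θ ≤ 1 := by nlinarith
  have hθk : ((1 - θ)⁻¹) ^ (k - 1) ≤ 2 := by
    have h1 : 1 + ((k - 1 : ℕ) : ℝ) * (-θ) ≤ (1 + -θ) ^ (k - 1) :=
      one_add_mul_le_pow (by linarith) _
    have h2 : ((k - 1 : ℕ) : ℝ) ≤ k := by exact_mod_cast Nat.sub_le k 1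
    have h3 : (1 / 2 : ℝ) ≤ (1 - θ) ^ (k - 1) := by
      have h4 : (1 + -θ) = 1 - θ := by ring
      rw [h4] at h1
      nlinarith
    rw [inv_pow]
    have h4 : (0 : ℝ) < (1 - θ) ^ (k - 1) := by linarith
    rw [inv_le_comm₀ h4 (by norm_num)]
    linarith
  obtain ⟨t, ht⟩ := exists_pow_lt_of_lt_one (half_pos hε) (by linarith : 1 - θ < 1)
  obtain ⟨δ, hδ, A, hA, hN⟩ := NC_all k hk hΦ hθ hθ2 hθk hkθ t ε hε
  refine ⟨δ, hδ, A, hA, ?_⟩
  intro X H _ _ _ _ S w hG Λ _ _ f hf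
  obtain ⟨M, h1, h2, h3⟩ := hN X H S w hG Λ f hf
  refine ⟨M, h1, h2, fun i => ?_⟩
  refine le_trans ?_ (h3 i)
  have hF0 : 0 ≤ ∑ e, w e * f i e := Finset.sum_nonneg fun e _ => mul_nonneg (hG.nn e) (hf i e).1
  have ha : 1 - ε ≤ aa k θ t := by
    unfold aa
    have h4 : 0 ≤ (1 - θ) ^ t := pow_nonneg (by linarith) _
    have h5 : 0 ≤ (k : ℝ) * θ := by positivity
    nlinarith
  have h4 := mul_le_mul_of_nonneg_right ha hF0
  linarith

end Pool.Agent.H12.Nib
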