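import Pool.Agent.H12.Nib.Diff

/-!
One round of the nibble: bounded differences, trimming, the bite.
-/

open Finset

namespace Pool.Agent.H12.Nib

set_option linter.unusedSectionVars false

variable {X H : Type} [Fintype X] [Fintype H] [DecidableEq X] [DecidableEq H]

section Trim

variable (S : H → Finset X)

/-- trimming -/
theorem trim {γ : ℝ} (hγ : 0 ≤ γ) (u : H → ℝ) (hu : ∀ e, 0 ≤ u e) :
    ∃ w' : H → ℝ, (∀ e, 0 ≤ w' e) ∧ (∀ e, w' e ≤ (1 + γ)⁻¹ * u e) ∧ (∀ v, ld S w' v ≤ 1) ∧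
      ∑ e, ((1 + γ)⁻¹ * u e - w' e) ≤ ∑ v, max 0 (ld S u v - 1 - γ) := by
  set c := (1 + γ)⁻¹ with hc
  have hc0 : 0 < c := by positivity
  have hc1 : c ≤ 1 := by
    rw [hc]
    exact inv_le_one_of_one_le₀ (by linarith)
  set x : X → ℝ := fun v => (max 1 (c * ld S u v))⁻¹ with hx
  have hx0 : ∀ v, 0 ≤ x v := fun v => inv_nonneg.2 (le_trans zero_le_one (le_max_left _ _))
  have hx1 : ∀ v, x v ≤ 1 := fun v => inv_le_one_of_one_le₀ (le_max_left _ _)
  have hld : ∀ v, 0 ≤ ld S u v := fun v => Finset.sum_nonneg fun e _ => hu e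
  have hcx : ∀ v, c * ld S u v * x v ≤ 1 := by
    intro v
    have h1 : (0 : ℝ) < max 1 (c * ld S u v) := lt_of_lt_of_le one_pos (le_max_left _ _)
    change c * ld S u v * (max 1 (c * ld S u v))⁻¹ ≤ 1
    rw [← div_eq_mul_inv, div_le_one h1]
    exact le_max_right _ _
  have hprod0 : ∀ e, 0 ≤ ∏ v ∈ S e, x v := fun e => Finset.prod_nonneg fun v _ => hx0 v
  have hprod1 : ∀ e, ∏ v ∈ S e, x v ≤ 1 := fun e =>
    Finset.prod_le_one (fun v _ => hx0 v) (fun v _ => hx1 v)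
  refine ⟨fun e => c * u e * ∏ v ∈ S e, x v, ?_, ?_, ?_, ?_⟩
  · intro e
    exact mul_nonneg (mul_nonneg hc0.le (hu e)) (hprod0 e)
  · intro e
    exact mul_le_of_le_one_right (mul_nonneg hc0.le (hu e)) (hprod1 e)
  · intro v
    refine le_trans ?_ (hcx v)
    unfold ld
    rw [Finset.mul_sum, Finset.sum_mul]
    apply Finset.sum_le_sum
    intro e he
    apply mul_le_mul_of_nonneg_left _ (mul_nonneg hc0.le (hu e))
    have hv := (Finset.mem_filter.1 he).2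
    rw [← Finset.mul_prod_erase _ _ hv]
    exact mul_le_of_le_one_right (hx0 v)
      (Finset.prod_le_one (fun v _ => hx0 v) (fun v _ => hx1 v))
  · have h1 : ∀ e, c * u e - c * u e * ∏ v ∈ S e, x v ≤ ∑ v ∈ S e, c * u e * (1 - x v) := by
      intro e
      have h2 := prod_one_sub (S e) (fun v => 1 - x v) (fun v _ => sub_nonneg.2 (hx1 v))
        (fun v _ => sub_le_self 1 (hx0 v))
      simp only [sub_sub_cancel] at h2
      rw [← Finset.mul_sum]
      have h3 := mul_le_mul_of_nonneg_left h2 (mul_nonneg hc0.le (hu e))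
      linarith
    refine (Finset.sum_le_sum fun e _ => h1 e).trans ?_
    have h2 : ∑ e, ∑ v ∈ S e, c * u e * (1 - x v) = ∑ v, c * ld S u v * (1 - x v) := by
      unfold ld
      have h3 : ∀ e, ∑ v ∈ S e, c * u e * (1 - x v) =
          ∑ v, if v ∈ S e then c * u e * (1 - x v) else 0 := by
        intro e
        rw [Finset.sum_ite_mem, Finset.univ_inter]
      rw [Finset.sum_congr rfl fun e _ => h3 e, Finset.sum_comm]
      apply Finset.sum_congr rfl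
      intro v _
      rw [← Finset.sum_filter, Finset.mul_sum, Finset.sum_mul]
    rw [h2]
    apply Finset.sum_le_sum
    intro v _
    rcases le_or_gt (c * ld S u v) 1 with h | h
    · have h3 : x v = 1 := by
        change (max 1 (c * ld S u v))⁻¹ = 1
        rw [max_eq_left h, inv_one]
      rw [h3, sub_self, mul_zero]
      exact le_max_left _ _
    · have h3 : c * ld S u v * x v = 1 := by
        change c * ld S u v * (max 1 (c * ld S u v))⁻¹ = 1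
        rw [max_eq_right h.le, mul_inv_cancel₀ (by linarith)]
      have h4 : c * ld S u v * (1 - x v) = c * (ld S u v - 1 - γ) := by
        have h5 : c * (1 + γ) = 1 := inv_mul_cancel₀ (by linarith)
        linear_combination (-1) * h3 + h5
      rw [h4]
      refine le_trans ?_ (le_max_right _ _)
      apply mul_le_of_le_one_left _ hc1
      have h5 : c * (1 + γ) = 1 := inv_mul_cancel₀ (by linarith)
      by_contra hneg
      push Not at hneg
      have h6 : c * (ld S u v - 1 - γ) < 0 := mul_neg_of_pos_of_neg hc0 hneg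
      nlinarith

end Trim

section Round

variable {S : H → Finset X} {w : H → ℝ} {θ : ℝ}
variable {k : ℕ} {δ : ℝ} (hG : Good k δ S w) (hθ : 0 < θ) (hθ2 : θ ≤ 1 / 2)
  (hθk : ((1 - θ)⁻¹) ^ (k - 1) ≤ 2)
include hG hθ hθ2

/-- the difference bounds -/
noncomputable def cc (S : H → Finset X) (w : H → ℝ) (k : ℕ) (Φ : ℝ) : H ⊕ X → ℝ :=
  Sum.elim (fun _ => 5 * (k : ℝ) ^ 2 * Φ) (fun v => 5 * (k : ℝ) ^ 2 * Φ * ld S w v)

include hθk in
/-- bounded differences of the objective -/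
theorem JJ_diff (hk : 1 ≤ k) {γ a Φ : ℝ} (hγ : 0 ≤ γ) (ha : 0 ≤ a) (ha1 : a ≤ 1) {f : H → ℝ}
    (hΦ : 0 ≤ Φ) (hf : ∀ e, 0 ≤ f e) (hfΦ : ∀ e, f e ≤ Φ) (i : H ⊕ X) (t : Finset (H ⊕ X)) :
    |JJ S w θ γ a Φ f (insert i t) - JJ S w θ γ a Φ f (t.erase i)| ≤ cc S w k Φ i := by
  have hk1 : (1 : ℝ) ≤ k := by exact_mod_cast hk
  -- survivors
  set B1 := ∑ e, (if sv S (insert i t) e then w1 S w θ e * f e else 0) with hB1
  set B0 := ∑ e, (if sv S (t.erase i) e then w1 S w θ e * f e else 0) with hB0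
  set R := Sum.elim (fun _ : H => 2 * (k : ℝ)) (fun v => 2 * ld S w v) i with hR
  have hR0 : 0 ≤ R := by
    rw [hR]
    rcases i with g | v
    · change 0 ≤ 2 * (k : ℝ)
      positivity
    · change 0 ≤ 2 * ld S w v
      have := ld_nonneg hG v
      linarith
  have hb1 : B0 - B1 ≤ Φ * R := by
    rw [hB0, hB1, ← Finset.sum_sub_distrib]
    exact dead_le hG hθ hθ2 hθk hΦ (fun e => by
      rw [mul_comm]
      exact mul_le_mul_of_nonneg_right (hfΦ e) (w1_nonneg hG hθ hθ2 e)) t i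
  have hb0 : 0 ≤ B0 - B1 := by
    rw [hB0, hB1, ← Finset.sum_sub_distrib]
    exact dead_nonneg hG hθ hθ2 (fun e => mul_nonneg (w1_nonneg hG hθ hθ2 e) (hf e)) t i
  -- excess loads
  set C1 := ∑ v, max 0 (L1 S w θ (insert i t) v - 1 - γ) with hC1
  set C0 := ∑ v, max 0 (L1 S w θ (t.erase i) v - 1 - γ) with hC0
  have hsub : t.erase i ⊆ insert i t := (Finset.erase_subset _ _).trans (Finset.subset_insert _ _)
  have hc0 : 0 ≤ C0 - C1 := by
    rw [hC0, hC1, ← Finset.sum_sub_distrib]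
    apply Finset.sum_nonneg
    intro v _
    have h := L1_anti hG hθ hθ2 hsub v
    rw [sub_nonneg]
    apply max_le_max le_rfl
    linarith
  have hc1 : C0 - C1 ≤ k * R := by
    have h1 : C0 - C1 ≤ ∑ v, L1 S w θ (t.erase i) v - ∑ v, L1 S w θ (insert i t) v := by
      rw [hC0, hC1, ← Finset.sum_sub_distrib, ← Finset.sum_sub_distrib]
      apply Finset.sum_le_sum
      intro v _
      have h := L1_anti hG hθ hθ2 hsub v
      rcases max_cases 0 (L1 S w θ (t.erase i) v - 1 - γ) with ⟨h2, h3⟩ | ⟨h2, h3⟩ <;>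
        rcases max_cases 0 (L1 S w θ (insert i t) v - 1 - γ) with ⟨h4, h5⟩ | ⟨h4, h5⟩ <;>
        rw [h2, h4] <;> linarith
    refine h1.trans ?_
    rw [sum_L1 hG hθ hθ2, sum_L1 hG hθ hθ2, ← Finset.sum_sub_distrib]
    exact dead_le hG hθ hθ2 hθk (Nat.cast_nonneg k) (fun e => by
      rw [mul_comm]
      exact mul_le_mul_of_nonneg_right (by exact_mod_cast hG.card e)
        (w1_nonneg hG hθ hθ2 e)) t i
  -- matching
  set A1 := ∑ e ∈ m1 S (insert i t), f e with hA1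
  set A0 := ∑ e ∈ m1 S (t.erase i), f e with hA0
  have hJ : JJ S w θ γ a Φ f (insert i t) - JJ S w θ γ a Φ f (t.erase i) =
      (A1 - A0) + a * (Φ * (C0 - C1) - (1 + γ)⁻¹ * (B0 - B1)) := by
    unfold JJ
    ring
  have hγ1 : (1 + γ)⁻¹ ≤ 1 := inv_le_one_of_one_le₀ (by linarith)
  have hγ0 : 0 ≤ (1 + γ)⁻¹ := inv_nonneg.2 (by linarith)
  have e1 : (1 + γ)⁻¹ * (B0 - B1) ≤ Φ * R := (mul_le_of_le_one_left hb0 hγ1).trans hb1
  have e2 : 0 ≤ (1 + γ)⁻¹ * (B0 - B1) := mul_nonneg hγ0 hb0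
  have e3 : Φ * (C0 - C1) ≤ Φ * (k * R) := mul_le_mul_of_nonneg_left hc1 hΦ
  have e4 : 0 ≤ Φ * (C0 - C1) := mul_nonneg hΦ hc0
  have e5 : |a * (Φ * (C0 - C1) - (1 + γ)⁻¹ * (B0 - B1))| ≤ Φ * R + Φ * (k * R) := by
    rw [abs_mul, abs_of_nonneg ha]
    refine (mul_le_of_le_one_left (abs_nonneg _) ha1).trans ?_
    rw [abs_le]
    have : 0 ≤ Φ * R := mul_nonneg hΦ hR0
    have : 0 ≤ Φ * (k * R) := mul_nonneg hΦ (mul_nonneg (Nat.cast_nonneg k) hR0)
    constructor <;> linarith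
  rw [hJ]
  refine (abs_add_le _ _).trans ?_
  rcases i with g | v
  · have h1 := m1_diff hG hθ hθ2 hf hfΦ hk t g
    rw [← hA1, ← hA0] at h1
    change _ ≤ 5 * (k : ℝ) ^ 2 * Φ
    have h2 : R = 2 * k := rfl
    rw [h2] at e5
    have h3 : k * Φ + (Φ * (2 * k) + Φ * (k * (2 * k))) ≤ 5 * (k : ℝ) ^ 2 * Φ := by
      have : (k : ℝ) * Φ ≤ (k : ℝ) ^ 2 * Φ := by
        apply mul_le_mul_of_nonneg_right _ hΦ
        nlinarith
      nlinarith
    linarith
  · have h1 : A1 = A0 := by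
      rw [hA1, hA0, m1_diff' hG hθ hθ2]
    rw [h1, sub_self, abs_zero, zero_add]
    change _ ≤ 5 * (k : ℝ) ^ 2 * Φ * ld S w v
    have h2 : R = 2 * ld S w v := rfl
    rw [h2] at e5
    refine e5.trans ?_
    have h3 : 0 ≤ Φ * ld S w v := mul_nonneg hΦ (ld_nonneg hG v)
    have h4 : (k : ℝ) ≤ (k : ℝ) ^ 2 := by nlinarith
    nlinarith

theorem cc_sum (hk : 1 ≤ k) {Φ : ℝ} :
    ∑ i, pp S w θ i * cc S w k Φ i ^ 2 ≤ 50 * (k : ℝ) ^ 5 * Φ ^ 2 * ∑ e, w e := by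
  have hk1 : (1 : ℝ) ≤ k := by exact_mod_cast hk
  rw [Fintype.sum_sum_type]
  have h1 : ∑ g : H, pp S w θ (Sum.inl g) * cc S w k Φ (Sum.inl g) ^ 2 ≤
      25 * (k : ℝ) ^ 4 * Φ ^ 2 * ∑ e, w e := by
    rw [Finset.mul_sum]
    apply Finset.sum_le_sum
    intro g _
    change θ * w g * (5 * (k : ℝ) ^ 2 * Φ) ^ 2 ≤ _
    have h2 : θ * w g ≤ w g := mul_le_of_le_one_left (hG.nn g) (by linarith)
    have h3 := mul_le_mul_of_nonneg_right h2 (sq_nonneg (5 * (k : ℝ) ^ 2 * Φ))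
    refine h3.trans (le_of_eq ?_)
    ring
  have h2 : ∑ v : X, pp S w θ (Sum.inr v) * cc S w k Φ (Sum.inr v) ^ 2 ≤
      25 * (k : ℝ) ^ 4 * Φ ^ 2 * (k * ∑ e, w e) := by
    have h3 := sum_ld hG hθ hθ2
    refine le_trans ?_ (mul_le_mul_of_nonneg_left h3 (by positivity))
    rw [Finset.mul_sum]
    apply Finset.sum_le_sum
    intro v _
    change pp S w θ (Sum.inr v) * (5 * (k : ℝ) ^ 2 * Φ * ld S w v) ^ 2 ≤ _
    have h4 := pp_le_one hG hθ hθ2 (Sum.inr v)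
    have h5 := ld_nonneg hG v
    have h6 := hG.load v
    have h7 : ld S w v ^ 2 ≤ ld S w v := by nlinarith
    calc pp S w θ (Sum.inr v) * (5 * (k : ℝ) ^ 2 * Φ * ld S w v) ^ 2
        ≤ 1 * (5 * (k : ℝ) ^ 2 * Φ * ld S w v) ^ 2 :=
          mul_le_mul_of_nonneg_right h4 (sq_nonneg _)
      _ = 25 * (k : ℝ) ^ 4 * Φ ^ 2 * ld S w v ^ 2 := by ring
      _ ≤ 25 * (k : ℝ) ^ 4 * Φ ^ 2 * ld S w v := mul_le_mul_of_nonneg_left h7 (by positivity)
  have h3 : 0 ≤ ∑ e, w e := Finset.sum_nonneg fun e _ => hG.nn e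
  have h4 : 25 * (k : ℝ) ^ 4 * Φ ^ 2 * ∑ e, w e ≤ 25 * (k : ℝ) ^ 5 * Φ ^ 2 * ∑ e, w e := by
    apply mul_le_mul_of_nonneg_right _ h3
    apply mul_le_mul_of_nonneg_right _ (sq_nonneg _)
    have : (k : ℝ) ^ 4 ≤ (k : ℝ) ^ 5 := pow_le_pow_right₀ hk1 (by norm_num)
    linarith
  calc _ ≤ 25 * (k : ℝ) ^ 4 * Φ ^ 2 * ∑ e, w e + 25 * (k : ℝ) ^ 4 * Φ ^ 2 * (k * ∑ e, w e) :=
        add_le_add h1 h2
    _ = 25 * (k : ℝ) ^ 4 * Φ ^ 2 * ∑ e, w e + 25 * (k : ℝ) ^ 5 * Φ ^ 2 * ∑ e, w e := by ring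
    _ ≤ 25 * (k : ℝ) ^ 5 * Φ ^ 2 * ∑ e, w e + 25 * (k : ℝ) ^ 5 * Φ ^ 2 * ∑ e, w e := by linarith
    _ = _ := by ring

/-- pairwise disjoint edges -/
def IsM (S : H → Finset X) (M : Finset H) : Prop :=
  ∀ e ∈ M, ∀ g ∈ M, e ≠ g → Disjoint (S e) (S g)

theorem m1_isM (t : Finset (H ⊕ X)) : IsM S (m1 S t) := by
  intro e he g hg hne
  simp only [m1, Finset.mem_filter, Finset.mem_univ, true_and] at he hg
  by_contra hd
  have h1 : (Sum.inl g : H ⊕ X) ∈ ((mts S (S e)).erase e).disjSum ∅ := by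
    rw [Finset.inl_mem_disjSum, Finset.mem_erase, mem_mts]
    exact ⟨hne.symm, fun h => hd h.symm⟩
  exact Finset.disjoint_left.1 he.2 hg.1 h1

theorem sv_disj {t : Finset (H ⊕ X)} {e : H} (he : sv S t e) : ∀ g ∈ m1 S t, Disjoint (S g) (S e) := by
  intro g hg
  simp only [m1, Finset.mem_filter, Finset.mem_univ, true_and] at hg
  by_contra hd
  have h1 : (Sum.inl g : H ⊕ X) ∈ (mts S (S e)).disjSum (S e) := by
    rw [Finset.inl_mem_disjSum, mem_mts]
    exact hd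
  exact Finset.disjoint_left.1 he hg.1 h1

include hθk in
/-- one bite -/
theorem bite (hk : 1 ≤ k) (hδ : 0 ≤ δ) {γ a Φ : ℝ} (hγ : 0 < γ) (ha : 0 ≤ a) (ha1 : a ≤ 1)
    (hΦ : 0 < Φ) (Λ : Type) [Fintype Λ] [Nonempty Λ] (f : Λ → H → ℝ)
    (hf : ∀ i e, 0 ≤ f i e ∧ f i e ≤ Φ) :
    ∃ M : Finset H, ∃ w' : H → ℝ, IsM S M ∧ Good k (2 * δ) S w' ∧ (∀ e, w' e ≤ 2 * w e) ∧
      (∀ e, w' e ≠ 0 → ∀ g ∈ M, Disjoint (S g) (S e)) ∧
      ∀ i, θ * (1 - k * θ) * ∑ e, w e * f i e + a * ((1 + γ)⁻¹ * ((1 - θ) * ∑ e, w e * f i e) -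
        Φ * ((Real.exp (8 * θ * k ^ 2 * δ) - 1 + 4 * (k * δ)) / (4 * γ) * (k * ∑ e, w e))) -
        (2 * k + Real.log (Fintype.card Λ)) * (5 * (k : ℝ) ^ 2 * Φ * Real.sqrt (∑ e, w e + 1)) ≤
        ∑ e ∈ M, f i e + a * ∑ e, w' e * f i e := by
  have hk1 : (1 : ℝ) ≤ k := by exact_mod_cast hk
  have hk0 : (0 : ℝ) < k := by linarith
  have hW : 0 ≤ ∑ e, w e := Finset.sum_nonneg fun e _ => hG.nn e
  set W := ∑ e, w e with hWd
  have hsq : 0 < Real.sqrt (W + 1) := Real.sqrt_pos.2 (by linarith)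
  have hsq1 : 1 ≤ Real.sqrt (W + 1) := by
    rw [Real.one_le_sqrt]
    linarith
  set D := 5 * (k : ℝ) ^ 2 * Φ with hD
  have hD0 : 0 < D := by positivity
  set l := (D * Real.sqrt (W + 1))⁻¹ with hl
  have hl0 : 0 < l := by positivity
  have hlD : l * D ≤ 1 := by
    rw [hl, inv_mul_eq_div, div_le_one (by positivity)]
    exact le_mul_of_one_le_right hD0.le hsq1
  have hlc : ∀ i, l * cc S w k Φ i ≤ 1 := by
    intro i
    rcases i with g | v
    · exact hlD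
    · change l * (D * ld S w v) ≤ 1
      rw [← mul_assoc]
      have h1 := ld_nonneg hG v
      have h2 := hG.load v
      have h3 : 0 ≤ l * D := by positivity
      nlinarith
  have hV : l ^ 2 * ∑ i, pp S w θ i * cc S w k Φ i ^ 2 ≤ 2 * k := by
    have h1 := cc_sum hG hθ hθ2 hk (Φ := Φ)
    have h2 := mul_le_mul_of_nonneg_left h1 (sq_nonneg l)
    refine h2.trans ?_
    have h3 : l ^ 2 = (D ^ 2 * (W + 1))⁻¹ := by
      rw [hl, inv_pow, mul_pow, Real.sq_sqrt (by linarith)]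
    rw [h3, inv_mul_eq_div, div_le_iff₀ (by positivity)]
    rw [← hWd, hD]
    have h4 : 0 ≤ (k : ℝ) ^ 5 * Φ ^ 2 := by positivity
    nlinarith
  obtain ⟨t, ht⟩ := exists_good (pp_nonneg hG hθ hθ2) (pp_le_one hG hθ hθ2)
    (fun i => JJ S w θ γ a Φ (f i))
    (fun i => JJ_diff hG hθ hθ2 hθk hk hγ.le ha ha1 hΦ.le (fun e => (hf i e).1)
      (fun e => (hf i e).2)) hl0 hlc hV
  set u : H → ℝ := fun e => if sv S t e then w1 S w θ e else 0 with hu
  have hu0 : ∀ e, 0 ≤ u e := by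
    intro e
    simp only [hu]
    split_ifs
    · exact w1_nonneg hG hθ hθ2 e
    · exact le_refl _
  obtain ⟨w', hw0, hwu, hwl, hws⟩ := trim S hγ.le u hu0
  have hγ1 : (1 + γ)⁻¹ ≤ 1 := inv_le_one_of_one_le₀ (by linarith)
  have hw2 : ∀ e, w' e ≤ 2 * w e := by
    intro e
    refine (hwu e).trans ((mul_le_of_le_one_left (hu0 e) hγ1).trans ?_)
    simp only [hu]
    split_ifs
    · exact w1_le hG hθ hθ2 hθk e
    · have := hG.nn e
      linarith
  refine ⟨m1 S t, w', m1_isM hG hθ hθ2 t, ?_, hw2, ?_, ?_⟩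
  · refine ⟨hG.ne, hG.card, hw0, hwl, ?_⟩
    intro x y hxy
    have h1 := hG.codeg x y hxy
    unfold cd at h1 ⊢
    calc ∑ e with (x ∈ S e ∧ y ∈ S e), w' e ≤ ∑ e with (x ∈ S e ∧ y ∈ S e), 2 * w e :=
          Finset.sum_le_sum fun e _ => hw2 e
      _ = 2 * ∑ e with (x ∈ S e ∧ y ∈ S e), w e := by rw [Finset.mul_sum]
      _ ≤ 2 * δ := by linarith
  · intro e he
    apply sv_disj hG hθ hθ2
    by_contra hsv
    have h1 : u e = 0 := if_neg hsv
    have h2 := hwu e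
    rw [h1, mul_zero] at h2
    exact he (le_antisymm h2 (hw0 e))
  · intro i
    have h1 := ht i
    have h2 := EE_JJ hG hθ hθ2 hθk hδ hγ ha hΦ.le (f := f i) (fun e => (hf i e).1)
    have h3 : (2 * (k : ℝ) + Real.log (Fintype.card Λ)) / l =
        (2 * k + Real.log (Fintype.card Λ)) * (5 * (k : ℝ) ^ 2 * Φ * Real.sqrt (W + 1)) := by
      rw [hl, div_inv_eq_mul]
    rw [h3] at h1
    have h4 : JJ S w θ γ a Φ (f i) t ≤ ∑ e ∈ m1 S t, f i e + a * ∑ e, w' e * f i e := by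
      unfold JJ
      have h5 : (1 + γ)⁻¹ * (∑ e, if sv S t e then w1 S w θ e * f i e else 0) -
          Φ * ∑ v, max 0 (L1 S w θ t v - 1 - γ) ≤ ∑ e, w' e * f i e := by
        have h6 : (1 + γ)⁻¹ * (∑ e, if sv S t e then w1 S w θ e * f i e else 0) =
            ∑ e, (1 + γ)⁻¹ * u e * f i e := by
          rw [Finset.mul_sum]
          apply Finset.sum_congr rfl
          intro e _
          simp only [hu]
          split_ifs
          · ring
          · simp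
        have h7 : ∑ e, (1 + γ)⁻¹ * u e * f i e - ∑ e, w' e * f i e ≤
            Φ * ∑ e, ((1 + γ)⁻¹ * u e - w' e) := by
          rw [← Finset.sum_sub_distrib, Finset.mul_sum]
          apply Finset.sum_le_sum
          intro e _
          have h8 := hwu e
          have h9 := (hf i e).2
          nlinarith
        have h8 : Φ * ∑ e, ((1 + γ)⁻¹ * u e - w' e) ≤ Φ * ∑ v, max 0 (L1 S w θ t v - 1 - γ) :=
          mul_le_mul_of_nonneg_left hws hΦ.le
        rw [h6]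
        linarith
      have h6 := mul_le_mul_of_nonneg_left h5 ha
      linarith
    linarith

end Round

end Pool.Agent.H12.Nib
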